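import Pool.Agent.Q223.ID.Series

/-!
# The topological zeta function of the ideal `(f, u_1, …, u_κ)`
-/

set_option autoImplicit false
set_option linter.unusedSectionVars false

namespace Pool.Agent.Q223.ID

open Pool.Agent.W428.MOT Pool.Agent.TH192.MT Pool.Agent.TH192.MU

section spec

variable {R : Type} [CommRing R]

theorem coe_comp (v : R) (Q : Polynomial R) :
    ((Q.comp (Polynomial.C v * Polynomial.X) : Polynomial R) : PowerSeries R) =
      PowerSeries.rescale v (Q : PowerSeries R) := by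
  ext d
  rw [Polynomial.coeff_coe, Polynomial.comp_C_mul_X_coeff, PowerSeries.coeff_rescale,
    Polynomial.coeff_coe, mul_comm]

/-- the geometric sum -/
def G (u : R) (k : ℕ) : R := ∑ i ∈ Finset.range k, u ^ i

theorem G_mul (u : R) (k : ℕ) : (u - 1) * G u k = u ^ k - 1 := mul_geom_sum u k

theorem G_eps (ε : R →+* ℂ) {u : R} (h1 : ε u = 1) (k : ℕ) : ε (G u k) = k := by
  unfold G
  rw [map_sum]
  simp [h1]

theorem specAt_stab [IsDomain R] (u : Rˣ) (ε : R →+* ℂ) (h1 : ε (u : R) = 1)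
    (hu : (u : R) ≠ 1) (κ n : ℕ) (A A' : PowerSeries R)
    (hrel : (1 - PowerSeries.C (((u⁻¹ : Rˣ) : R) ^ κ) * PowerSeries.X) * A' =
      PowerSeries.C (((u : R) ^ κ - 1) * (u : R) ^ n) +
        (1 - PowerSeries.X) * PowerSeries.rescale (((u⁻¹ : Rˣ) : R) ^ κ) A)
    (s : ℕ) (hs : 0 < s) (c : ℂ) (h : SpecAt u ε A (s + κ) c) :
    SpecAt u ε A' s ((κ + s * c) / (s + κ)) := by
  obtain ⟨P, Q, x, y, hQA, hQ0, hxy, hy, hc⟩ := h
  set v : R := ((u⁻¹ : Rˣ) : R) ^ κ with hv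
  set w : R := (((u⁻¹) ^ s : Rˣ) : R) with hw
  have huinv : (u : R) * ((u⁻¹ : Rˣ) : R) = 1 := Units.mul_inv u
  have hws : (u : R) ^ s * w = 1 := by
    rw [hw, Units.val_pow_eq_pow_val, ← mul_pow, huinv, one_pow]
  have hvk : (u : R) ^ κ * v = 1 := by rw [hv, ← mul_pow, huinv, one_pow]
  have hvw : (((u⁻¹) ^ (s + κ) : Rˣ) : R) = v * w := by
    rw [hv, hw, Units.val_pow_eq_pow_val, Units.val_pow_eq_pow_val, pow_add]
    ring
  rw [hvw] at hQ0 hxy
  have hεi : ε ((u⁻¹ : Rˣ) : R) = 1 := by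
    have := congrArg ε huinv
    rwa [map_mul, h1, one_mul, map_one] at this
  have hεw : ε w = 1 := by rw [hw, Units.val_pow_eq_pow_val, map_pow, hεi, one_pow]
  have hεv : ε v = 1 := by rw [hv, map_pow, hεi, one_pow]
  have e1 : 1 - w = w * (((u : R) - 1) * G (u : R) s) := by
    rw [G_mul]
    linear_combination -hws
  have e2 : 1 - v * w = v * w * (((u : R) - 1) * G (u : R) (s + κ)) := by
    rw [G_mul, pow_add]
    linear_combination (-(u : R) ^ κ * v) * hws - hvk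
  have hsk : ((s : ℂ) + κ) ≠ 0 := by
    have : ((s + κ : ℕ) : ℂ) ≠ 0 := by
      rw [Nat.cast_ne_zero]
      omega
    push_cast at this
    exact this
  have hG0 : G (u : R) (s + κ) ≠ 0 := by
    intro h0
    have := G_eps ε h1 (s + κ)
    rw [h0, map_zero] at this
    apply hsk
    push_cast at this
    exact this.symm
  have hv0 : v ≠ 0 := fun h => by rw [h, mul_zero] at hvk; exact zero_ne_one hvk
  have hw0 : w ≠ 0 := fun h => by rw [h, mul_zero] at hws; exact zero_ne_one hws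
  have hne : 1 - v * w ≠ 0 := by
    rw [e2]
    exact mul_ne_zero (mul_ne_zero hv0 hw0) (mul_ne_zero (sub_ne_zero.2 hu) hG0)
  refine ⟨Polynomial.C (((u : R) ^ κ - 1) * (u : R) ^ n) *
      Q.comp (Polynomial.C v * Polynomial.X) +
      (1 - Polynomial.X) * P.comp (Polynomial.C v * Polynomial.X),
    (1 - Polynomial.C v * Polynomial.X) * Q.comp (Polynomial.C v * Polynomial.X),
    G (u : R) κ * (u : R) ^ n * y + w * G (u : R) s * x,
    y * (v * w) * G (u : R) (s + κ), ?_, ?_, ?_, ?_, ?_⟩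
  · rw [Polynomial.coe_mul, Polynomial.coe_sub, Polynomial.coe_one, Polynomial.coe_mul,
      Polynomial.coe_C, Polynomial.coe_X, Polynomial.coe_add, Polynomial.coe_mul,
      Polynomial.coe_mul, Polynomial.coe_C, Polynomial.coe_sub, Polynomial.coe_one,
      Polynomial.coe_X, coe_comp, coe_comp]
    have h3 : PowerSeries.rescale v (P : PowerSeries R) =
        PowerSeries.rescale v (Q : PowerSeries R) * PowerSeries.rescale v A := by
      rw [← map_mul, hQA]
    rw [h3]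
    linear_combination (PowerSeries.rescale v (Q : PowerSeries R)) * hrel
  · rw [Polynomial.eval_mul, Polynomial.eval_sub, Polynomial.eval_one, Polynomial.eval_mul,
      Polynomial.eval_C, Polynomial.eval_X, Polynomial.eval_comp, Polynomial.eval_mul,
      Polynomial.eval_C, Polynomial.eval_X]
    exact mul_ne_zero hne hQ0
  · rw [Polynomial.eval_add, Polynomial.eval_mul, Polynomial.eval_mul, Polynomial.eval_C,
      Polynomial.eval_sub, Polynomial.eval_one, Polynomial.eval_X, Polynomial.eval_comp,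
      Polynomial.eval_comp, Polynomial.eval_mul, Polynomial.eval_mul, Polynomial.eval_sub,
      Polynomial.eval_one, Polynomial.eval_mul,
      Polynomial.eval_C, Polynomial.eval_X, e1, e2, ← G_mul, Polynomial.eval_comp,
      Polynomial.eval_mul, Polynomial.eval_C, Polynomial.eval_X]
    linear_combination (w * (((u : R) - 1) * G (u : R) s) * (v * w) * G (u : R) (s + κ)) * hxy
  · rw [map_mul, map_mul, map_mul, hεv, hεw, G_eps ε h1, one_mul, mul_one]
    exact mul_ne_zero hy (by push_cast; exact hsk)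
  · rw [map_add, map_mul, map_mul, map_mul, map_mul, map_pow, map_mul, map_mul, map_mul, hεv,
      hεw, h1, G_eps ε h1, G_eps ε h1, G_eps ε h1, hc]
    push_cast
    field_simp
    rw [one_pow, mul_one]

end spec

section rat

open Polynomial

theorem num_denom_rel (a b : ℂ[X]) (hb : b ≠ 0) :
    a * (algebraMap ℂ[X] (RatFunc ℂ) a / algebraMap ℂ[X] (RatFunc ℂ) b).denom =
      (algebraMap ℂ[X] (RatFunc ℂ) a / algebraMap ℂ[X] (RatFunc ℂ) b).num * b := by
  set Z : RatFunc ℂ := algebraMap ℂ[X] (RatFunc ℂ) a / algebraMap ℂ[X] (RatFunc ℂ) b with hZ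
  apply RatFunc.algebraMap_injective ℂ
  have h6 : algebraMap ℂ[X] (RatFunc ℂ) b ≠ 0 := by
    rw [Ne, map_eq_zero_iff _ (RatFunc.algebraMap_injective ℂ)]
    exact hb
  have h7 : algebraMap ℂ[X] (RatFunc ℂ) Z.denom ≠ 0 := by
    rw [Ne, map_eq_zero_iff _ (RatFunc.algebraMap_injective ℂ)]
    exact Z.denom_ne_zero
  have h8 : algebraMap ℂ[X] (RatFunc ℂ) Z.num / algebraMap ℂ[X] (RatFunc ℂ) Z.denom =
      algebraMap ℂ[X] (RatFunc ℂ) a / algebraMap ℂ[X] (RatFunc ℂ) b := RatFunc.num_div_denom Z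
  rw [div_eq_div_iff h7 h6] at h8
  rw [map_mul, map_mul]
  exact h8.symm

/-- no common zero of numerator and denominator -/
theorem num_ne {Z : RatFunc ℂ} {s : ℂ} (h : Z.denom.eval s = 0) : Z.num.eval s ≠ 0 := by
  intro h2
  obtain ⟨a, b, hab⟩ := RatFunc.isCoprime_num_denom Z
  have h3 := congrArg (Polynomial.eval s) hab
  rw [eval_add, eval_mul, eval_mul, h, h2, mul_zero, mul_zero, add_zero, eval_one] at h3
  exact zero_ne_one h3

variable {R : Type} [CommRing R] [IsDomain R] (E : MK ℂ →+* R) (ε : R →+* ℂ)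

/-- a topological zeta function has no poles at positive integers -/
theorem denom_ne_of_pos {Zm : PowerSeries (MK ℂ)} {Z : RatFunc ℂ} (hZ : IsTopZeta E ε Zm Z)
    {k : ℕ} (hk : 0 < k) : Z.denom.eval (k : ℂ) ≠ 0 := by
  intro h
  obtain ⟨c, -, h2⟩ := hZ k hk
  rw [h, mul_zero] at h2
  exact num_ne h h2

/-- the topological zeta function of `(f, u)` -/
noncomputable def topStab (κ : ℕ) (Z : RatFunc ℂ) : RatFunc ℂ :=
  algebraMap ℂ[X] (RatFunc ℂ) (C (κ : ℂ) * Z.denom.comp (X + C (κ : ℂ)) +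
      X * Z.num.comp (X + C (κ : ℂ))) /
    algebraMap ℂ[X] (RatFunc ℂ) ((X + C (κ : ℂ)) * Z.denom.comp (X + C (κ : ℂ)))

theorem comp_shift_ne {p : ℂ[X]} (hp : p ≠ 0) (a : ℂ) : p.comp (X + C a) ≠ 0 := by
  intro h0
  apply hp
  have h1 := congrArg (fun p => p.comp (X - C a)) h0
  simp only [comp_assoc, zero_comp] at h1
  rw [add_comp, X_comp, C_comp, sub_add_cancel, comp_X] at h1
  exact h1

theorem topStab_rel (κ : ℕ) (Z : RatFunc ℂ) :
    (C (κ : ℂ) * Z.denom.comp (X + C (κ : ℂ)) + X * Z.num.comp (X + C (κ : ℂ))) *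
      (topStab κ Z).denom = (topStab κ Z).num *
        ((X + C (κ : ℂ)) * Z.denom.comp (X + C (κ : ℂ))) :=
  num_denom_rel _ _ (mul_ne_zero (X_add_C_ne_zero _) (comp_shift_ne Z.denom_ne_zero _))

theorem topStab_eval (κ : ℕ) (Z : RatFunc ℂ) (s : ℂ) :
    (κ * Z.denom.eval (s + κ) + s * Z.num.eval (s + κ)) * (topStab κ Z).denom.eval s =
      (topStab κ Z).num.eval s * ((s + κ) * Z.denom.eval (s + κ)) := by
  have h := congrArg (Polynomial.eval s) (topStab_rel κ Z)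
  simp only [eval_mul, eval_add, eval_C, eval_X, eval_comp] at h
  exact h

theorem isTop_stab (h1 : ε (E ((Lu ℂ : (MK ℂ)ˣ) : MK ℂ)) = 1)
    (hu : E ((Lu ℂ : (MK ℂ)ˣ) : MK ℂ) ≠ 1) (κ n : ℕ) {A A' : PowerSeries (MK ℂ)}
    (hrel : (1 - PowerSeries.C ((((Lu ℂ)⁻¹ : (MK ℂ)ˣ) : MK ℂ) ^ κ) * PowerSeries.X) * A' =
      PowerSeries.C ((((Lu ℂ : (MK ℂ)ˣ) : MK ℂ) ^ κ - 1) * ((Lu ℂ : (MK ℂ)ˣ) : MK ℂ) ^ n) +
        (1 - PowerSeries.X) *
          PowerSeries.rescale ((((Lu ℂ)⁻¹ : (MK ℂ)ˣ) : MK ℂ) ^ κ) A)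
    {Z : RatFunc ℂ} (hZ : IsTopZeta E ε A Z) : IsTopZeta E ε A' (topStab κ Z) := by
  intro s hs
  obtain ⟨c, hc, hnd⟩ := hZ (s + κ) (by omega)
  have hE := congrArg (PowerSeries.map E) hrel
  have e1 : ∀ a : MK ℂ, PowerSeries.map E (1 - PowerSeries.C a * PowerSeries.X) =
      1 - PowerSeries.C (E a) * PowerSeries.X := by
    intro a
    rw [map_sub, map_one, map_mul, PowerSeries.map_C, PowerSeries.map_X]
  have e2 : PowerSeries.map E (1 - PowerSeries.X : PowerSeries (MK ℂ)) =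
      (1 - PowerSeries.X : PowerSeries R) := by
    rw [map_sub, map_one, PowerSeries.map_X]
  have e3 : E ((((Lu ℂ : (MK ℂ)ˣ) : MK ℂ) ^ κ - 1) * ((Lu ℂ : (MK ℂ)ˣ) : MK ℂ) ^ n) =
      (E ((Lu ℂ : (MK ℂ)ˣ) : MK ℂ) ^ κ - 1) * E ((Lu ℂ : (MK ℂ)ˣ) : MK ℂ) ^ n := by
    rw [map_mul, map_sub, map_one, map_pow, map_pow]
  rw [map_mul (PowerSeries.map E), e1, map_add (PowerSeries.map E), PowerSeries.map_C,
    map_mul (PowerSeries.map E), e2, e3, map_pow E] at hE
  have hres : PowerSeries.map E (PowerSeries.rescale ((((Lu ℂ)⁻¹ : (MK ℂ)ˣ) : MK ℂ) ^ κ) A) =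
      PowerSeries.rescale (E (((Lu ℂ)⁻¹ : (MK ℂ)ˣ) : MK ℂ) ^ κ) (PowerSeries.map E A) := by
    ext d
    rw [PowerSeries.coeff_map, PowerSeries.coeff_rescale, PowerSeries.coeff_rescale, map_mul,
      map_pow, map_pow, PowerSeries.coeff_map]
  rw [hres] at hE
  have hS := specAt_stab (Units.map (E : MK ℂ →* R) (Lu ℂ)) ε h1 hu κ n
    (PowerSeries.map E A) (PowerSeries.map E A') hE s hs c hc
  refine ⟨_, hS, ?_⟩
  have h2 := topStab_eval κ Z (s : ℂ)
  push_cast at hnd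
  have hd : Z.denom.eval ((s : ℂ) + κ) ≠ 0 := by
    have := denom_ne_of_pos E ε hZ (k := s + κ) (by omega)
    push_cast at this
    exact this
  have hsk : ((s : ℂ) + κ) ≠ 0 := by
    have : ((s + κ : ℕ) : ℂ) ≠ 0 := by
      rw [Nat.cast_ne_zero]
      omega
    push_cast at this
    exact this
  rw [hnd] at h2
  have h3 : (κ + s * c) * (topStab κ Z).denom.eval (s : ℂ) =
      (topStab κ Z).num.eval (s : ℂ) * ((s : ℂ) + κ) := by
    apply mul_right_cancel₀ hd
    linear_combination h2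
  field_simp
  linear_combination -h3

theorem pole_stab {A : PowerSeries (MK ℂ)} {Z : RatFunc ℂ} (hZ : IsTopZeta E ε A Z) {κ : ℕ}
    (hκ : 0 < κ) {s₀ : ℂ} (h : Z.denom.eval s₀ = 0) :
    (topStab κ Z).denom.eval (s₀ - κ) = 0 := by
  have h2 := topStab_eval κ Z (s₀ - κ)
  rw [sub_add_cancel, h, mul_zero, mul_zero, mul_zero, zero_add, mul_eq_zero, mul_eq_zero] at h2
  rcases h2 with (h2 | h2) | h2
  · exfalso
    have h3 : s₀ = κ := by linear_combination h2
    rw [h3] at h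
    exact denom_ne_of_pos E ε hZ hκ h
  · exact absurd h2 (num_ne h)
  · exact h2

theorem poly_stab {A : PowerSeries (MK ℂ)} {Z : RatFunc ℂ} (hZ : IsTopZeta E ε A Z) {κ : ℕ}
    (hκ : 0 < κ) {b P' : ℂ[X]} (h : algebraMap ℂ[X] (RatFunc ℂ) (b.comp (X + C (κ : ℂ))) *
      topStab κ Z = algebraMap ℂ[X] (RatFunc ℂ) P') :
    ∃ P : ℂ[X], algebraMap ℂ[X] (RatFunc ℂ) b * Z = algebraMap ℂ[X] (RatFunc ℂ) P := by
  have hq0 : Z.denom.comp (X + C (κ : ℂ)) ≠ 0 := comp_shift_ne Z.denom_ne_zero _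
  have hden : algebraMap ℂ[X] (RatFunc ℂ) ((X + C (κ : ℂ)) * Z.denom.comp (X + C (κ : ℂ))) ≠
      0 := by
    rw [Ne, map_eq_zero_iff _ (RatFunc.algebraMap_injective ℂ)]
    exact mul_ne_zero (X_add_C_ne_zero _) hq0
  unfold topStab at h
  rw [← mul_div_assoc, div_eq_iff hden, ← map_mul, ← map_mul] at h
  have h1 := RatFunc.algebraMap_injective ℂ h
  have hdvd : Z.denom.comp (X + C (κ : ℂ)) ∣
      Z.num.comp (X + C (κ : ℂ)) * (X * b.comp (X + C (κ : ℂ))) := by
    refine ⟨P' * (X + C (κ : ℂ)) - b.comp (X + C (κ : ℂ)) * C (κ : ℂ), ?_⟩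
    linear_combination h1
  have hcop : IsCoprime (Z.denom.comp (X + C (κ : ℂ))) (Z.num.comp (X + C (κ : ℂ))) := by
    obtain ⟨a, b', hab⟩ := RatFunc.isCoprime_num_denom Z
    refine ⟨b'.comp (X + C (κ : ℂ)), a.comp (X + C (κ : ℂ)), ?_⟩
    rw [← mul_comp, ← mul_comp, ← add_comp, add_comm, hab, one_comp]
  have hcopX : IsCoprime (Z.denom.comp (X + C (κ : ℂ))) X := by
    refine (Irreducible.coprime_iff_not_dvd irreducible_X).2 ?_ |>.symm
    rw [X_dvd_iff, coeff_zero_eq_eval_zero, eval_comp, eval_add, eval_X, eval_C, zero_add]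
    exact denom_ne_of_pos E ε hZ hκ
  have h2 := hcopX.dvd_of_dvd_mul_left (hcop.dvd_of_dvd_mul_left hdvd)
  have h3 : Z.denom ∣ b := by
    obtain ⟨k, hk⟩ := h2
    refine ⟨k.comp (X - C (κ : ℂ)), ?_⟩
    have h4 := congrArg (fun p => p.comp (X - C (κ : ℂ))) hk
    simp only [mul_comp, comp_assoc, add_comp, X_comp, C_comp, sub_add_cancel, comp_X] at h4
    exact h4
  obtain ⟨k, hk⟩ := h3
  refine ⟨k * Z.num, ?_⟩
  have h7 : algebraMap ℂ[X] (RatFunc ℂ) Z.denom ≠ 0 := by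
    rw [Ne, map_eq_zero_iff _ (RatFunc.algebraMap_injective ℂ)]
    exact Z.denom_ne_zero
  conv_lhs => rw [← RatFunc.num_div_denom Z, hk]
  rw [map_mul, map_mul]
  field_simp

end rat

end Pool.Agent.Q223.ID
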