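import Pool.Agent.Q223.ID.Fam

/-!
# Automorphisms
-/

set_option autoImplicit false

namespace Pool.Agent.Q223.ID

open MvPolynomial Pool.Agent.Q223.MM

section psi

variable {n κ : ℕ}

/-- `z_(o m) x_(v m)`, where `z_none = 1` -/
noncomputable def wz (o : Fin κ → Option (Fin κ)) (v : Fin κ → Fin n) (m : Fin κ) :
    MvPolynomial (Fin n ⊕ Fin κ) ℂ :=
  ((o m).elim 1 fun m' => X (Sum.inr m')) * X (Sum.inl (v m))

/-- iterates of the inverse substitution -/
noncomputable def jN (o : Fin κ → Option (Fin κ)) (v : Fin κ → Fin n) :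
    ℕ → Fin κ → MvPolynomial (Fin n ⊕ Fin κ) ℂ
  | 0, m => X (Sum.inr m)
  | k + 1, m => X (Sum.inr m) + (o m).elim 1 (jN o v k) * X (Sum.inl (v m))

theorem jN_stable {o : Fin κ → Option (Fin κ)} (ho : Forest o) (v : Fin κ → Fin n) :
    ∀ (k : ℕ) (m : Fin κ), (m : ℕ) < k → jN o v k m = jN o v (k + 1) m := by
  intro k
  induction k with
  | zero => intro m hm; omega
  | succ k ih =>
    intro m hm
    have h1 : (o m).elim 1 (jN o v k) = (o m).elim 1 (jN o v (k + 1)) := by
      cases h : o m with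
      | none => rfl
      | some m' =>
        have h2 := ho m m' h
        rw [Fin.lt_def] at h2
        exact ih m' (by omega)
    show X (Sum.inr m) + (o m).elim 1 (jN o v k) * X (Sum.inl (v m)) =
      X (Sum.inr m) + (o m).elim 1 (jN o v (k + 1)) * X (Sum.inl (v m))
    rw [h1]

theorem jN_eq {o : Fin κ → Option (Fin κ)} (ho : Forest o) (v : Fin κ → Fin n) (m : Fin κ) :
    jN o v κ m = X (Sum.inr m) + (o m).elim 1 (jN o v κ) * X (Sum.inl (v m)) :=
  jN_stable ho v κ m m.2

/-- the substitution `z_m ↦ z_m - z_(o m) x_(v m)` -/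
noncomputable def psiF (o : Fin κ → Option (Fin κ)) (v : Fin κ → Fin n) :
    MvPolynomial (Fin n ⊕ Fin κ) ℂ →ₐ[ℂ] MvPolynomial (Fin n ⊕ Fin κ) ℂ :=
  aeval (Sum.elim (fun i => X (Sum.inl i)) fun m => X (Sum.inr m) - wz o v m)

/-- the inverse substitution -/
noncomputable def psiB (o : Fin κ → Option (Fin κ)) (v : Fin κ → Fin n) :
    MvPolynomial (Fin n ⊕ Fin κ) ℂ →ₐ[ℂ] MvPolynomial (Fin n ⊕ Fin κ) ℂ :=
  aeval (Sum.elim (fun i => X (Sum.inl i)) (jN o v κ))

variable (o : Fin κ → Option (Fin κ)) (v : Fin κ → Fin n)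

theorem psiF_x (i : Fin n) : psiF o v (X (Sum.inl i)) = X (Sum.inl i) := by
  rw [psiF, aeval_X, Sum.elim_inl]

theorem psiF_z (m : Fin κ) : psiF o v (X (Sum.inr m)) = X (Sum.inr m) - wz o v m := by
  rw [psiF, aeval_X, Sum.elim_inr]

theorem psiB_x (i : Fin n) : psiB o v (X (Sum.inl i)) = X (Sum.inl i) := by
  rw [psiB, aeval_X, Sum.elim_inl]

theorem psiB_z (m : Fin κ) : psiB o v (X (Sum.inr m)) = jN o v κ m := by
  rw [psiB, aeval_X, Sum.elim_inr]

theorem psiF_j (ho : Forest o) : ∀ (k : ℕ) (m : Fin κ), (m : ℕ) = k →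
    psiF o v (jN o v κ m) = X (Sum.inr m) := by
  intro k
  induction k using Nat.strong_induction_on with
  | _ k ih =>
    intro m hm
    rw [jN_eq ho v m, map_add, map_mul, psiF_z, psiF_x]
    have h1 : psiF o v ((o m).elim 1 (jN o v κ)) = (o m).elim 1 fun m' => X (Sum.inr m') := by
      cases h : o m with
      | none => exact map_one _
      | some m' =>
        have h2 := ho m m' h
        rw [Fin.lt_def] at h2
        exact ih m' (by omega) m' rfl
    rw [h1]
    unfold wz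
    ring

theorem psi_FB (ho : Forest o) : (psiF o v).comp (psiB o v) = AlgHom.id ℂ _ := by
  apply MvPolynomial.algHom_ext
  rintro (i | m)
  · rw [AlgHom.comp_apply, AlgHom.id_apply, psiB_x, psiF_x]
  · rw [AlgHom.comp_apply, AlgHom.id_apply, psiB_z, psiF_j o v ho m m rfl]

theorem psi_BF (ho : Forest o) : (psiB o v).comp (psiF o v) = AlgHom.id ℂ _ := by
  apply MvPolynomial.algHom_ext
  rintro (i | m)
  · rw [AlgHom.comp_apply, AlgHom.id_apply, psiF_x, psiB_x]
  · rw [AlgHom.comp_apply, AlgHom.id_apply, psiF_z]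
    unfold wz
    rw [map_sub, map_mul, psiB_z, psiB_x, jN_eq ho v m]
    have h1 : psiB o v ((o m).elim 1 fun m' => X (Sum.inr m')) = (o m).elim 1 (jN o v κ) := by
      cases h : o m with
      | none => exact map_one _
      | some m' => exact psiB_z o v m'
    rw [h1, add_sub_cancel_right]

/-- the automorphism `z_m ↦ z_m - z_(o m) x_(v m)` -/
noncomputable def psi (ho : Forest o) :
    MvPolynomial (Fin n ⊕ Fin κ) ℂ ≃ₐ[ℂ] MvPolynomial (Fin n ⊕ Fin κ) ℂ :=
  AlgEquiv.ofAlgHom (psiF o v) (psiB o v) (psi_FB o v ho) (psi_BF o v ho)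

theorem psi_z (ho : Forest o) (m : Fin κ) : psi o v ho (X (Sum.inr m)) =
    X (Sum.inr m) - wz o v m := psiF_z o v m

theorem psi_ren (ho : Forest o) (g : MvPolynomial (Fin n) ℂ) :
    psi o v ho (rename Sum.inl g) = rename Sum.inl g := by
  have h : (psiF o v).comp (rename Sum.inl) = rename Sum.inl := by
    apply MvPolynomial.algHom_ext
    intro i
    rw [AlgHom.comp_apply, rename_X, psiF_x]
  exact DFunLike.congr_fun h g

/-- the linear forms `∑ c_m z_m`, from Horner's scheme -/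
theorem horner_keyI {c : Fin κ → ℂ} {a : ℂ} {e : Fin κ → MvPolynomial (Fin n) ℂ}
    {f : MvPolynomial (Fin n) ℂ} (h : Horner o v c a e f) :
    C a + ∑ m, C (c m) * X (Sum.inr m) = rename Sum.inl f +
      ∑ m, rename Sum.inl (e m) * (X (Sum.inr m) - wz o v m) := by
  classical
  obtain ⟨h1, h2⟩ := h
  set ρ : MvPolynomial (Fin n) ℂ →ₐ[ℂ] MvPolynomial (Fin n ⊕ Fin κ) ℂ := rename Sum.inl with hρ
  have hX : ∀ i, ρ (X i) = X (Sum.inl i) := fun i => rename_X _ _
  have e1 : ∀ j, ρ (e j) = C (c j) +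
      ∑ m, if o m = some j then X (Sum.inl (v m)) * ρ (e m) else 0 := by
    intro j
    conv_lhs => rw [h1 j]
    rw [map_add, map_sum]
    congr 1
    · exact rename_C _ _
    · refine Finset.sum_congr rfl fun m _ => ?_
      split_ifs
      · rw [map_mul, hX]
      · exact map_zero _
  have e2 : ρ f = C a + ∑ m, if o m = none then X (Sum.inl (v m)) * ρ (e m) else 0 := by
    rw [h2, map_add, map_sum]
    congr 1
    · exact rename_C _ _
    · refine Finset.sum_congr rfl fun m _ => ?_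
      split_ifs
      · rw [map_mul, hX]
      · exact map_zero _
  have e3 : ∑ j, ρ (e j) * X (Sum.inr j) = ∑ j, C (c j) * X (Sum.inr j) +
      ∑ m, (o m).elim 0 (fun j => (X (Sum.inr j) : MvPolynomial (Fin n ⊕ Fin κ) ℂ)) *
        (X (Sum.inl (v m)) * ρ (e m)) := by
    rw [Finset.sum_congr rfl fun j _ => by rw [e1 j, add_mul], Finset.sum_add_distrib]
    congr 1
    rw [Finset.sum_congr rfl fun j _ => by rw [Finset.sum_mul], Finset.sum_comm]
    refine Finset.sum_congr rfl fun m _ => ?_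
    cases hm : o m with
    | none =>
      simp
    | some j0 =>
      rw [Finset.sum_eq_single j0]
      · rw [if_pos rfl]
        show _ = X (Sum.inr j0) * _
        ring
      · intro j _ hj
        rw [if_neg (fun h => hj (Option.some.inj h).symm), zero_mul]
      · intro h
        exact absurd (Finset.mem_univ _) h
  have e4 : C a + ∑ j, ρ (e j) * wz o v j = ρ f +
      ∑ m, (o m).elim 0 (fun j => (X (Sum.inr j) : MvPolynomial (Fin n ⊕ Fin κ) ℂ)) *
        (X (Sum.inl (v m)) * ρ (e m)) := by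
    rw [e2, add_assoc, ← Finset.sum_add_distrib]
    congr 1
    refine Finset.sum_congr rfl fun m _ => ?_
    unfold wz
    cases hm : o m with
    | none =>
      simp
      ring
    | some j0 =>
      simp
      ring
  rw [Finset.sum_congr rfl fun j _ => mul_sub _ _ _, Finset.sum_sub_distrib, e3]
  linear_combination e4

end psi

section ext

variable {α β : Type}

/-- the automorphism on the right factor -/
noncomputable def extR (α : Type) (ψ : MvPolynomial β ℂ ≃ₐ[ℂ] MvPolynomial β ℂ) :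
    MvPolynomial (α ⊕ β) ℂ ≃ₐ[ℂ] MvPolynomial (α ⊕ β) ℂ :=
  AlgEquiv.ofAlgHom
    (aeval (Sum.elim (fun a => X (Sum.inl a)) fun b => rename Sum.inr (ψ (X b))))
    (aeval (Sum.elim (fun a => X (Sum.inl a)) fun b => rename Sum.inr (ψ.symm (X b))))
    (by
      apply MvPolynomial.algHom_ext
      rintro (a | b)
      · rw [AlgHom.comp_apply, aeval_X, Sum.elim_inl, aeval_X, Sum.elim_inl, AlgHom.id_apply]
      · rw [AlgHom.comp_apply, aeval_X, Sum.elim_inr, AlgHom.id_apply]
        have h : (aeval (Sum.elim (fun a => X (Sum.inl a)) fun b => rename Sum.inr (ψ (X b))) :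
            MvPolynomial (α ⊕ β) ℂ →ₐ[ℂ] MvPolynomial (α ⊕ β) ℂ).comp (rename Sum.inr) =
            (rename Sum.inr).comp (ψ : MvPolynomial β ℂ →ₐ[ℂ] MvPolynomial β ℂ) := by
          apply MvPolynomial.algHom_ext
          intro b
          rw [AlgHom.comp_apply, rename_X, aeval_X, Sum.elim_inr]
          rfl
        have h2 := DFunLike.congr_fun h (ψ.symm (X b))
        rw [AlgHom.comp_apply, AlgHom.comp_apply] at h2
        rw [h2]
        have h3 : (ψ : MvPolynomial β ℂ →ₐ[ℂ] MvPolynomial β ℂ) (ψ.symm (X b)) = X b :=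
          ψ.apply_symm_apply (X b)
        rw [h3, rename_X])
    (by
      apply MvPolynomial.algHom_ext
      rintro (a | b)
      · rw [AlgHom.comp_apply, aeval_X, Sum.elim_inl, aeval_X, Sum.elim_inl, AlgHom.id_apply]
      · rw [AlgHom.comp_apply, aeval_X, Sum.elim_inr, AlgHom.id_apply]
        have h : (aeval (Sum.elim (fun a => X (Sum.inl a)) fun b => rename Sum.inr
            (ψ.symm (X b))) :
            MvPolynomial (α ⊕ β) ℂ →ₐ[ℂ] MvPolynomial (α ⊕ β) ℂ).comp (rename Sum.inr) =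
            (rename Sum.inr).comp (ψ.symm : MvPolynomial β ℂ →ₐ[ℂ] MvPolynomial β ℂ) := by
          apply MvPolynomial.algHom_ext
          intro b
          rw [AlgHom.comp_apply, rename_X, aeval_X, Sum.elim_inr]
          rfl
        have h2 := DFunLike.congr_fun h (ψ (X b))
        rw [AlgHom.comp_apply, AlgHom.comp_apply] at h2
        rw [h2]
        have h3 : (ψ.symm : MvPolynomial β ℂ →ₐ[ℂ] MvPolynomial β ℂ) (ψ (X b)) = X b :=
          ψ.symm_apply_apply (X b)
        rw [h3, rename_X])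

theorem extR_inl (ψ : MvPolynomial β ℂ ≃ₐ[ℂ] MvPolynomial β ℂ) (a : α) :
    extR α ψ (X (Sum.inl a)) = X (Sum.inl a) := by
  show (aeval _ : MvPolynomial (α ⊕ β) ℂ →ₐ[ℂ] _) (X (Sum.inl a)) = _
  rw [aeval_X, Sum.elim_inl]

theorem extR_ren (ψ : MvPolynomial β ℂ ≃ₐ[ℂ] MvPolynomial β ℂ) (g : MvPolynomial β ℂ) :
    extR α ψ (rename Sum.inr g) = rename Sum.inr (ψ g) := by
  have h : (aeval (Sum.elim (fun a => X (Sum.inl a)) fun b => rename Sum.inr (ψ (X b))) :
      MvPolynomial (α ⊕ β) ℂ →ₐ[ℂ] MvPolynomial (α ⊕ β) ℂ).comp (rename Sum.inr) =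
      (rename Sum.inr).comp (ψ : MvPolynomial β ℂ →ₐ[ℂ] MvPolynomial β ℂ) := by
    apply MvPolynomial.algHom_ext
    intro b
    rw [AlgHom.comp_apply, rename_X, aeval_X, Sum.elim_inr]
    rfl
  exact DFunLike.congr_fun h g

variable {ι μ : Type} [Fintype ι]

/-- the substitution `w_m ↦ w_m + ∑_j y_j e_(j, m)` -/
noncomputable def shF (e : ι → μ → MvPolynomial β ℂ) :
    MvPolynomial ((ι ⊕ μ) ⊕ β) ℂ →ₐ[ℂ] MvPolynomial ((ι ⊕ μ) ⊕ β) ℂ :=
  aeval (Sum.elim (Sum.elim (fun j => X (Sum.inl (Sum.inl j)))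
    fun m => X (Sum.inl (Sum.inr m)) + ∑ j, X (Sum.inl (Sum.inl j)) * rename Sum.inr (e j m))
      fun b => X (Sum.inr b))

theorem shF_y (e : ι → μ → MvPolynomial β ℂ) (j : ι) :
    shF e (X (Sum.inl (Sum.inl j))) = X (Sum.inl (Sum.inl j)) := by
  rw [shF, aeval_X, Sum.elim_inl, Sum.elim_inl]

theorem shF_w (e : ι → μ → MvPolynomial β ℂ) (m : μ) :
    shF e (X (Sum.inl (Sum.inr m))) = X (Sum.inl (Sum.inr m)) +
      ∑ j, X (Sum.inl (Sum.inl j)) * rename Sum.inr (e j m) := by
  rw [shF, aeval_X, Sum.elim_inl, Sum.elim_inr]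

theorem shF_ren (e : ι → μ → MvPolynomial β ℂ) (g : MvPolynomial β ℂ) :
    shF e (rename Sum.inr g) = rename Sum.inr g := by
  have h : (shF e).comp (rename Sum.inr) = rename Sum.inr := by
    apply MvPolynomial.algHom_ext
    intro b
    rw [AlgHom.comp_apply, rename_X, shF, aeval_X, Sum.elim_inr]
  exact DFunLike.congr_fun h g

theorem shF_comp (e e' : ι → μ → MvPolynomial β ℂ) (h : ∀ j m, e j m + e' j m = 0) :
    (shF e).comp (shF e') = AlgHom.id ℂ _ := by
  apply MvPolynomial.algHom_ext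
  rintro ((j | m) | b)
  · rw [AlgHom.comp_apply, shF_y, shF_y, AlgHom.id_apply]
  · rw [AlgHom.comp_apply, shF_w, map_add, shF_w, map_sum, AlgHom.id_apply, add_assoc,
      ← Finset.sum_add_distrib]
    rw [Finset.sum_eq_zero, add_zero]
    intro j _
    rw [map_mul, shF_y, shF_ren, ← mul_add, ← map_add, h, map_zero, mul_zero]
  · rw [AlgHom.comp_apply, AlgHom.id_apply]
    have := shF_ren e' (X b)
    rw [rename_X] at this
    rw [this]
    have := shF_ren e (X b)
    rw [rename_X] at this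
    exact this

/-- the automorphism `w_m ↦ w_m + ∑_j y_j e_(j, m)` -/
noncomputable def shear (e : ι → μ → MvPolynomial β ℂ) :
    MvPolynomial ((ι ⊕ μ) ⊕ β) ℂ ≃ₐ[ℂ] MvPolynomial ((ι ⊕ μ) ⊕ β) ℂ :=
  AlgEquiv.ofAlgHom (shF e) (shF fun j m => -e j m)
    (shF_comp _ _ fun j m => add_neg_cancel _) (shF_comp _ _ fun j m => neg_add_cancel _)

end ext

end Pool.Agent.Q223.ID
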