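import Pool.Agent.Q223.MM.Alg

/-!
# Horner schemes of families of polynomials
-/

set_option autoImplicit false
set_option linter.unusedSectionVars false

namespace Pool.Agent.Q223.ID

open MvPolynomial Pool.Agent.Q223.MM

section

variable {R : Type} [CommRing R] {σ : Type}

/-- the disjoint union of two forests -/
def oApp {κ₁ κ₂ : ℕ} (o1 : Fin κ₁ → Option (Fin κ₁)) (o2 : Fin κ₂ → Option (Fin κ₂)) :
    Fin (κ₁ + κ₂) → Option (Fin (κ₁ + κ₂)) :=
  Fin.addCases (fun m => (o1 m).map (Fin.castAdd κ₂)) fun m => (o2 m).map (Fin.natAdd κ₁)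

theorem forest_app {κ₁ κ₂ : ℕ} {o1 : Fin κ₁ → Option (Fin κ₁)} {o2 : Fin κ₂ → Option (Fin κ₂)}
    (f1 : Forest o1) (f2 : Forest o2) : Forest (oApp o1 o2) := by
  intro m m'
  unfold oApp
  refine Fin.addCases (fun m => ?_) (fun m => ?_) m
  · rw [Fin.addCases_left]
    intro h
    obtain ⟨x, hx, rfl⟩ := Option.map_eq_some_iff.1 h
    exact f1 m x hx
  · rw [Fin.addCases_right]
    intro h
    obtain ⟨x, hx, rfl⟩ := Option.map_eq_some_iff.1 h
    have h2 := f2 m x hx
    rw [Fin.lt_def] at h2 ⊢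
    rw [Fin.val_natAdd, Fin.val_natAdd]
    omega

theorem horner_app {κ₁ κ₂ : ℕ} {o1 : Fin κ₁ → Option (Fin κ₁)} {v1 : Fin κ₁ → σ}
    {d1 : Fin κ₁ → R} {e1 : Fin κ₁ → MvPolynomial σ R} {c1 : R} {g1 : MvPolynomial σ R}
    {o2 : Fin κ₂ → Option (Fin κ₂)} {v2 : Fin κ₂ → σ}
    {d2 : Fin κ₂ → R} {e2 : Fin κ₂ → MvPolynomial σ R} {c2 : R} {g2 : MvPolynomial σ R}
    (h1 : Horner o1 v1 d1 c1 e1 g1) (h2 : Horner o2 v2 d2 c2 e2 g2) :
    Horner (oApp o1 o2) (Fin.addCases v1 v2 : Fin (κ₁ + κ₂) → σ)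
      (Fin.addCases d1 d2 : Fin (κ₁ + κ₂) → R) (c1 + c2)
      (Fin.addCases e1 e2 : Fin (κ₁ + κ₂) → MvPolynomial σ R) (g1 + g2) := by
  classical
  obtain ⟨k1, r1⟩ := h1
  obtain ⟨k2, r2⟩ := h2
  unfold oApp
  refine ⟨?_, ?_⟩
  · intro j
    rw [Fin.sum_univ_add]
    simp only [Fin.addCases_left, Fin.addCases_right]
    refine Fin.addCases (fun j => ?_) (fun j => ?_) j
    · simp only [Fin.addCases_left]
      have a1 : ∀ m, ((o1 m).map (Fin.castAdd κ₂) = some (Fin.castAdd κ₂ j)) ↔ o1 m = some j := by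
        intro m
        rw [Option.map_eq_some_iff]
        constructor
        · rintro ⟨x, hx, h⟩
          rw [hx, (Fin.castAdd_injective _ _) h]
        · intro h
          exact ⟨j, h, rfl⟩
      have a2 : ∀ m, ¬ ((o2 m).map (Fin.natAdd κ₁) = some (Fin.castAdd κ₂ j)) := by
        intro m h
        rw [Option.map_eq_some_iff] at h
        obtain ⟨x, -, h⟩ := h
        have := congrArg Fin.val h
        simp at this
        omega
      simp only [a1, a2, if_false, Finset.sum_const_zero, add_zero]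
      exact k1 j
    · simp only [Fin.addCases_right]
      have a1 : ∀ m, ((o2 m).map (Fin.natAdd κ₁) = some (Fin.natAdd κ₁ j)) ↔ o2 m = some j := by
        intro m
        rw [Option.map_eq_some_iff]
        constructor
        · rintro ⟨x, hx, h⟩
          have h' : x = j := by
            have := congrArg Fin.val h
            simp at this
            exact Fin.ext this
          rw [hx, h']
        · intro h
          exact ⟨j, h, rfl⟩
      have a2 : ∀ m, ¬ ((o1 m).map (Fin.castAdd κ₂) = some (Fin.natAdd κ₁ j)) := by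
        intro m h
        rw [Option.map_eq_some_iff] at h
        obtain ⟨x, -, h⟩ := h
        have := congrArg Fin.val h
        simp at this
        omega
      simp only [a1, a2, if_false, Finset.sum_const_zero, zero_add]
      exact k2 j
  · rw [Fin.sum_univ_add]
    simp only [Fin.addCases_left, Fin.addCases_right, Option.map_eq_none_iff]
    rw [r1, r2, map_add]
    ring

theorem horner_zero {κ : ℕ} (o : Fin κ → Option (Fin κ)) (v : Fin κ → σ) :
    Horner o v (fun _ => (0 : R)) 0 (fun _ => 0) 0 := by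
  classical
  refine ⟨fun j => ?_, ?_⟩ <;> simp

/-- the `f j` have Horner schemes along one forest with `κ` nodes, with coefficients in `T` -/
def RepF {ι : Type} (T : Set R) (κ : ℕ) (a : ι → R) (f : ι → MvPolynomial σ R) : Prop :=
  ∃ (o : Fin κ → Option (Fin κ)) (v : Fin κ → σ) (c : ι → Fin κ → R)
    (e : ι → Fin κ → MvPolynomial σ R), Forest o ∧ (∀ j m, c j m ∈ T) ∧
      ∀ j, Horner o v (c j) (a j) (e j) (f j)

theorem addCases_mem {κ₁ κ₂ : ℕ} {T : Set R} {c1 : Fin κ₁ → R} {c2 : Fin κ₂ → R}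
    (h1 : ∀ m, c1 m ∈ T) (h2 : ∀ m, c2 m ∈ T) (m : Fin (κ₁ + κ₂)) :
    (Fin.addCases c1 c2 m : R) ∈ T := by
  refine Fin.addCases (fun m => ?_) (fun m => ?_) m
  · rw [Fin.addCases_left]; exact h1 m
  · rw [Fin.addCases_right]; exact h2 m

theorem repF_succ {ι : Type} {T : Set R} (h0 : (0 : R) ∈ T) (i : σ) {κ : ℕ} {a : ι → R}
    {f : ι → MvPolynomial σ R} (h : RepF T κ a f) : RepF T (κ + 1) a f := by
  obtain ⟨o, v, c, e, ho, hc, hH⟩ := h
  refine ⟨oApp o fun _ : Fin 1 => none, Fin.addCases v fun _ : Fin 1 => i,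
    fun j => Fin.addCases (c j) fun _ : Fin 1 => 0, fun j => Fin.addCases (e j)
      fun _ : Fin 1 => 0, forest_app ho (fun m m' h => by simp at h),
      (fun j m => addCases_mem (hc j) (fun _ => h0) m), fun j => ?_⟩
  have := horner_app (hH j) (horner_zero (R := R) (fun _ : Fin 1 => none) fun _ => i)
  rw [add_zero, add_zero] at this
  exact this

theorem repF_ge {ι : Type} {T : Set R} (h0 : (0 : R) ∈ T) (i : σ) {κ : ℕ} {a : ι → R}
    {f : ι → MvPolynomial σ R} (h : RepF T κ a f) : ∀ κ', κ ≤ κ' → RepF T κ' a f := by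
  intro κ' hκ
  induction κ', hκ using Nat.le_induction with
  | base => exact h
  | succ k _ ih => exact repF_succ h0 i ih

theorem repF_all {T : Set R} (h0 : (0 : R) ∈ T) : ∀ {r : ℕ} (a : Fin r → R)
    (f : Fin r → MvPolynomial σ R), (∀ j, ∃ κ, Rep T κ (a j) (f j)) → ∃ κ, RepF T κ a f := by
  intro r
  induction r with
  | zero =>
    intro a f _
    exact ⟨0, Fin.elim0, Fin.elim0, fun j => j.elim0, fun j => j.elim0, fun m => m.elim0,
      fun j => j.elim0, fun j => j.elim0⟩
  | succ r ih =>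
    intro a f h
    obtain ⟨κ₁, o1, v1, c1, e1, ho1, hc1, hH1⟩ := h 0
    obtain ⟨κ₂, o2, v2, c2, e2, ho2, hc2, hH2⟩ := ih (fun j => a j.succ) (fun j => f j.succ)
      fun j => h j.succ
    refine ⟨κ₁ + κ₂, oApp o1 o2, Fin.addCases v1 v2,
      Fin.cons (Fin.addCases c1 fun _ => 0) fun j => Fin.addCases (fun _ => 0) (c2 j),
      Fin.cons (Fin.addCases e1 fun _ => 0) fun j => Fin.addCases (fun _ => 0) (e2 j),
      forest_app ho1 ho2, ?_, ?_⟩
    · refine Fin.cases ?_ (fun j => ?_)
      · intro m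
        rw [Fin.cons_zero]
        exact addCases_mem hc1 (fun _ => h0) m
      · intro m
        rw [Fin.cons_succ]
        exact addCases_mem (fun _ => h0) (hc2 j) m
    · refine Fin.cases ?_ (fun j => ?_)
      · rw [Fin.cons_zero, Fin.cons_zero]
        have := horner_app hH1 (horner_zero (R := R) o2 v2)
        rw [add_zero, add_zero] at this
        exact this
      · rw [Fin.cons_succ, Fin.cons_succ]
        have := horner_app (horner_zero (R := R) o1 v1) (hH2 j)
        rw [zero_add, zero_add] at this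
        exact this

/-- every family has Horner schemes -/
theorem repF_closure {S : Set R} {r : ℕ} (f : Fin r → MvPolynomial σ R)
    (hf : ∀ j d, coeff d (f j) ∈ AddSubgroup.closure S) :
    ∃ κ, RepF (coeffs S) κ (fun j => coeff 0 (f j)) f := by
  classical
  refine repF_all (T := coeffs S) (Or.inl rfl) _ f fun j => ?_
  obtain ⟨κ, h⟩ := rep_all (S := S) (f j - C (coeff 0 (f j))) (by
    rw [coeff_sub, coeff_zero_C, sub_self]) (fun d => by
      rw [coeff_sub, coeff_C]
      refine AddSubgroup.sub_mem _ (hf j d) ?_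
      split_ifs
      · exact hf j 0
      · exact AddSubgroup.zero_mem _)
  have h2 := rep_add (rep_C (σ := σ) (coeffs S) (coeff 0 (f j))) h
  rw [add_zero, add_sub_cancel] at h2
  exact ⟨_, h2⟩

end

end Pool.Agent.Q223.ID
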