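import Pool.Agent.Q223.ID.Aut
import Pool.Agent.Q223.ID.Must
import Pool.Agent.Q223.ID.Top
import Pool.Agent.Y229.PG.Main
import Pool.Agent.W206.CU.Pole
import Pool.Agent.Y229.SP4

/-!
# The functional equation of the ideal of a program
-/

set_option autoImplicit false
set_option linter.unusedSectionVars false

namespace Pool.Agent.Q223.ID

open MvPolynomial Pool.Agent.W574.SM Pool.Agent.W574.HS Pool.Agent.Q223.MM
open Pool.Agent.H628R4.TP (IsBFunction)
open Pool.Agent.W206.CU (isBFunction_iso)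
open Pool.Agent.Y229.PG (becomes_global)
open Pool.Agent.Y229.RE (stab)

variable {n r κ : ℕ}

/-- The generators `a_j + ∑_m c_(j, m) z_m` and `z_m - z_(o m) x_(v m)` (with `z_none = 1`) of the ideal
of a program. -/
noncomputable def gens (o : Fin κ → Option (Fin κ)) (v : Fin κ → Fin n) (a : Fin r → ℂ)
    (c : Fin r → Fin κ → ℂ) : Fin r ⊕ Fin κ → MvPolynomial (Fin n ⊕ Fin κ) ℂ :=
  Sum.elim (fun j => C (a j) + ∑ m, C (c j m) * X (Sum.inr m))
    fun m => X (Sum.inr m) - ((o m).elim 1 fun m' => X (Sum.inr m')) * X (Sum.inl (v m))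

theorem univ_sum {σ ι μ : Type} [Fintype ι] [Fintype μ] (f : ι ⊕ μ → MvPolynomial σ ℂ) :
    univ f = ∑ j, X (Sum.inl (Sum.inl j)) * rename Sum.inr (f (Sum.inl j)) +
      ∑ m, X (Sum.inl (Sum.inr m)) * rename Sum.inr (f (Sum.inr m)) := by
  rw [univ, Fintype.sum_sum_type]

/-- the renaming of the variables -/
def eqv (r n κ : ℕ) : (Fin r ⊕ Fin κ) ⊕ (Fin n ⊕ Fin κ) ≃ Fin ((r + n) + (κ + κ)) :=
  (Equiv.sumSumSumComm (Fin r) (Fin κ) (Fin n) (Fin κ)).trans
    ((Equiv.sumCongr finSumFinEquiv finSumFinEquiv).trans finSumFinEquiv)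

theorem rename_univ_stab (f : Fin r → MvPolynomial (Fin n) ℂ) :
    rename (eqv r n κ) (univ (stabI (Fin κ) f)) =
      stab (rename finSumFinEquiv (univ f)) κ := by
  rw [univ_sum, map_add, map_sum, map_sum]
  unfold stab univ
  rw [map_sum, map_sum]
  congr 1
  · refine Finset.sum_congr rfl fun j _ => ?_
    rw [map_mul, rename_X, map_mul, rename_X, map_mul, rename_X, stabI, Sum.elim_inl,
      rename_rename, rename_rename, rename_rename, rename_rename]
    rfl
  · refine Finset.sum_congr rfl fun m _ => ?_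
    rw [map_mul, rename_X, stabI, Sum.elim_inr, rename_X, rename_X]
    rfl

theorem univ_deg (f : Fin r → MvPolynomial (Fin n) ℂ) (hf : ∃ j, f j ≠ 0) :
    (rename (finSumFinEquiv : Fin r ⊕ Fin n ≃ Fin (r + n)) (univ f)).totalDegree ≠ 0 := by
  classical
  intro h0
  have h1 := totalDegree_eq_zero_iff_eq_C.1 h0
  have h2 : univ f = C (coeff 0 (rename (finSumFinEquiv : Fin r ⊕ Fin n ≃ Fin (r + n))
      (univ f))) := by
    apply rename_injective _ (Equiv.injective (finSumFinEquiv : Fin r ⊕ Fin n ≃ Fin (r + n)))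
    rw [rename_C]
    exact h1
  obtain ⟨j0, hj0⟩ := hf
  have h3 := congrArg (aeval (Sum.elim (fun j => if j = j0 then (1 : MvPolynomial (Fin n) ℂ) else 0)
    X)) h2
  have h4 := congrArg (aeval (Sum.elim (fun _ => (0 : MvPolynomial (Fin n) ℂ)) X)) h2
  unfold univ at h3 h4
  rw [map_sum] at h3 h4
  simp only [map_mul, aeval_X, Sum.elim_inl, aeval_rename, zero_mul, Finset.sum_const_zero] at h3 h4
  rw [Finset.sum_eq_single j0 (fun j _ hj => by rw [if_neg hj, zero_mul])
    (fun h => absurd (Finset.mem_univ _) h), if_pos rfl, one_mul] at h3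
  apply hj0
  have h5 : ∀ (g : MvPolynomial (Fin n) ℂ) (y : Fin r → MvPolynomial (Fin n) ℂ),
      aeval (Sum.elim y X ∘ Sum.inr) g = g := by
    intro g y
    rw [show (Sum.elim y X ∘ Sum.inr : Fin n → MvPolynomial (Fin n) ℂ) = X from rfl]
    exact aeval_X_left_apply g
  rw [h5] at h3
  rw [h3, MvPolynomial.algHom_C]
  rw [MvPolynomial.algHom_C] at h4
  exact h4.symm

/-- the isomorphism of `∑ y_j f_j + ∑ w_m z_m` with the linear form of the generators -/
theorem univ_gens {o : Fin κ → Option (Fin κ)} (ho : Forest o) {v : Fin κ → Fin n}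
    {a : Fin r → ℂ} {c : Fin r → Fin κ → ℂ} {e : Fin r → Fin κ → MvPolynomial (Fin n) ℂ}
    {f : Fin r → MvPolynomial (Fin n) ℂ} (hH : ∀ j, Horner o v (c j) (a j) (e j) (f j)) :
    shear (fun j m => rename Sum.inl (e j m)) (extR (Fin r ⊕ Fin κ) (psi o v ho)
      (univ (stabI (Fin κ) f))) = univ (gens o v a c) := by
  rw [univ_sum, univ_sum, map_add, map_sum, map_sum]
  have h1 : ∀ j : Fin r, extR (Fin r ⊕ Fin κ) (psi o v ho) (X (Sum.inl (Sum.inl j)) *
      rename Sum.inr (stabI (Fin κ) f (Sum.inl j))) = X (Sum.inl (Sum.inl j)) *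
        rename Sum.inr (rename Sum.inl (f j)) := by
    intro j
    rw [map_mul, extR_inl, extR_ren, stabI, Sum.elim_inl, psi_ren]
  have h2 : ∀ m : Fin κ, extR (Fin r ⊕ Fin κ) (psi o v ho) (X (Sum.inl (Sum.inr m)) *
      rename Sum.inr (stabI (Fin κ) f (Sum.inr m))) = X (Sum.inl (Sum.inr m)) *
        rename Sum.inr (X (Sum.inr m) - wz o v m) := by
    intro m
    rw [map_mul, extR_inl, extR_ren, stabI, Sum.elim_inr, psi_z]
  rw [Finset.sum_congr rfl fun j _ => h1 j, Finset.sum_congr rfl fun m _ => h2 m]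
  show shF _ _ = _
  rw [map_add, map_sum, map_sum]
  have h3 : ∀ j : Fin r, shF (fun (j : Fin r) (m : Fin κ) =>
      (rename Sum.inl (e j m) : MvPolynomial (Fin n ⊕ Fin κ) ℂ)) (X (Sum.inl (Sum.inl j)) *
      rename Sum.inr (rename Sum.inl (f j))) = X (Sum.inl (Sum.inl j)) *
        rename Sum.inr (rename Sum.inl (f j)) := by
    intro j
    rw [map_mul, shF_y, shF_ren]
  have h4 : ∀ m : Fin κ, shF (fun (j : Fin r) (m : Fin κ) =>
      (rename Sum.inl (e j m) : MvPolynomial (Fin n ⊕ Fin κ) ℂ)) (X (Sum.inl (Sum.inr m)) *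
      rename Sum.inr (X (Sum.inr m) - wz o v m)) = X (Sum.inl (Sum.inr m)) *
        rename Sum.inr (X (Sum.inr m) - wz o v m) + ∑ j, X (Sum.inl (Sum.inl j)) *
          rename Sum.inr (rename Sum.inl (e j m) * (X (Sum.inr m) - wz o v m)) := by
    intro m
    rw [map_mul, shF_w, shF_ren, add_mul, Finset.sum_mul]
    congr 1
    refine Finset.sum_congr rfl fun j _ => ?_
    rw [map_mul]
    ring
  rw [Finset.sum_congr rfl fun j _ => h3 j, Finset.sum_congr rfl fun m _ => h4 m,
    Finset.sum_add_distrib, add_comm (∑ m, X (Sum.inl (Sum.inr m)) *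
      rename Sum.inr (X (Sum.inr m) - wz o v m)), ← add_assoc]
  congr 1
  rw [Finset.sum_comm, ← Finset.sum_add_distrib]
  refine Finset.sum_congr rfl fun j _ => ?_
  rw [← Finset.mul_sum, ← mul_add, ← map_sum, ← map_add, ← horner_keyI o v (hH j)]
  rfl

/-- **The functional equation of the generators of a program.** -/
theorem fe_gens {o : Fin κ → Option (Fin κ)} (ho : Forest o) {v : Fin κ → Fin n}
    {a : Fin r → ℂ} {c : Fin r → Fin κ → ℂ} {e : Fin r → Fin κ → MvPolynomial (Fin n) ℂ}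
    {f : Fin r → MvPolynomial (Fin n) ℂ} (hf : ∃ j, f j ≠ 0)
    (hH : ∀ j, Horner o v (c j) (a j) (e j) (f j)) {b : Polynomial ℂ}
    (hb : IsFunctionalEq f b) :
    IsFunctionalEq (gens o v a c) (b.comp (Polynomial.X + Polynomial.C (κ : ℂ))) := by
  classical
  have h1 := Pool.Agent.W366.SI.taskI1' f b hb
  have h2 := isBFunction_iso (renameEquiv ℂ (finSumFinEquiv : Fin r ⊕ Fin n ≃ Fin (r + n))) h1
  rw [renameEquiv_apply] at h2
  have h3 := (becomes_global (univ_deg f hf) h2 (k := κ)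
    (G := stab (rename finSumFinEquiv (univ f)) κ) ⟨AlgEquiv.refl, rfl⟩).2 b rfl
  rw [← rename_univ_stab] at h3
  have h4 := isBFunction_iso (renameEquiv ℂ (eqv r n κ)).symm h3
  have h5 : (renameEquiv ℂ (eqv r n κ)).symm (rename (eqv r n κ) (univ (stabI (Fin κ) f))) =
      univ (stabI (Fin κ) f) := (renameEquiv ℂ (eqv r n κ)).symm_apply_apply _
  rw [h5] at h4
  have h6 := isBFunction_iso (shear fun j m => rename Sum.inl (e j m))
    (isBFunction_iso (extR (Fin r ⊕ Fin κ) (psi o v ho)) h4)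
  rw [univ_gens ho hH] at h6
  exact functionalEq_of_univ' _ _ h6

end Pool.Agent.Q223.ID
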