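import Pool.Agent.TH192.MT.Ser
import Pool.Agent.TH192.MU.WDefs
import Pool.Agent.W417.MT.K0
import Pool.Agent.W63.MTFin

/-!
# The classes of jets for the ideal `(f, u_1, …, u_κ)`
-/

set_option autoImplicit false
set_option linter.unusedSectionVars false

namespace Pool.Agent.Q223.ID

open MvPolynomial Pool.Agent.W428.MOT Pool.Agent.TH192.MT

variable {K : Type} [Field K] {σ ι μ : Type}

theorem coeff_congr (f : MvPolynomial σ K) (q : ℕ)
    (γ δ : σ → PowerSeries (AlgebraicClosure K))
    (h : ∀ i, ∀ k ≤ q, PowerSeries.coeff k (γ i) = PowerSeries.coeff k (δ i)) :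
    ∀ k ≤ q, PowerSeries.coeff k (aeval γ f) = PowerSeries.coeff k (aeval δ f) := by
  induction f using MvPolynomial.induction_on with
  | C a =>
    intro k _
    simp only [MvPolynomial.algHom_C]
  | add p q' hp hq =>
    intro k hk
    rw [map_add, map_add, map_add, map_add, hp k hk, hq k hk]
  | mul_X p i hp =>
    intro k hk
    rw [map_mul (aeval γ), map_mul (aeval δ), aeval_X, aeval_X, PowerSeries.coeff_mul,
      PowerSeries.coeff_mul]
    refine Finset.sum_congr rfl fun x hx => ?_
    have := Finset.HasAntidiagonal.mem_antidiagonal.1 hx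
    rw [hp x.1 (by omega), h i x.2 (by omega)]

theorem coeff_ar' {N : ℕ} (z : Pt K (σ × Fin (N + 1))) (i : σ) (j : ℕ) (h : j < N + 1) :
    PowerSeries.coeff j (ar z i) = z (i, ⟨j, h⟩) := by
  rw [ar, PowerSeries.coeff_mk, dif_pos h]

theorem isPA_ar {N : ℕ} (i : σ) : IsPA (fun z : Pt K (σ × Fin (N + 1)) => ar z i) := by
  intro j
  simp only [ar, PowerSeries.coeff_mk]
  split_ifs with h
  · exact IsPF.coord _
  · exact IsPF.zero

theorem isPA_aeval {τ : Type} (γ : σ → Pt K τ → PowerSeries (AlgebraicClosure K))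
    (h : ∀ i, IsPA (γ i)) (f : MvPolynomial σ K) :
    IsPA (fun z => MvPolynomial.aeval (fun i => γ i z) f) := by
  induction f using MvPolynomial.induction_on with
  | C a =>
    simp only [MvPolynomial.algHom_C, PowerSeries.algebraMap_apply]
    exact IsPA.C (IsPF.const a)
  | add p q hp hq =>
    simp only [map_add]
    exact hp.add hq
  | mul_X p i hp =>
    simp only [map_mul, MvPolynomial.aeval_X]
    exact hp.mul (h i)

theorem isPF_coeff {N : ℕ} (f : MvPolynomial σ K) (k : ℕ) :
    IsPF (fun z : Pt K (σ × Fin (N + 1)) => PowerSeries.coeff k (aeval (ar z) f)) :=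
  isPA_aeval (fun i z => ar z i) (fun i => isPA_ar i) f k

/-- the jets of level `N` on which the family has order at least `i` -/
def TF (f : ι → MvPolynomial σ K) (i N : ℕ) : Set (Pt K (σ × Fin (N + 1))) :=
  {z | ∀ j, ∀ k < i, PowerSeries.coeff k (aeval (ar z) (f j)) = 0}

theorem constr_TF [Finite ι] (f : ι → MvPolynomial σ K) (i N : ℕ) : Constr (TF f i N) :=
  Constr.all fun j => Constr.allLt _ fun k _ => Constr.eqz (isPF_coeff (f j) k)

theorem constr_JetF [Finite ι] (f : ι → MvPolynomial σ K) {W : Set (Pt K σ)} (hW : Constr W)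
    (N : ℕ) : Constr (JetF f W N) := by
  unfold JetF
  refine Constr.and (hW.preimage _ fun i => IsPF.coord _)
    (Constr.and (constr_TF f N N) ?_)
  have h1 := (Constr.all (p := fun (j : ι) (z : Pt K (σ × Fin (N + 1))) =>
    PowerSeries.coeff N (aeval (ar z) (f j)) = 0) fun j => Constr.eqz (isPF_coeff (f j) N)).compl
  have h2 : {z : Pt K (σ × Fin (N + 1)) | ∃ j, PowerSeries.coeff N (aeval (ar z) (f j)) ≠ 0} =
      {z : Pt K (σ × Fin (N + 1)) | ∀ j, PowerSeries.coeff N (aeval (ar z) (f j)) = 0}ᶜ := by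
    ext z
    simp only [Set.mem_ofPred_eq, Set.mem_compl_iff, not_forall]
  rw [h2]
  exact h1

variable {R : Type} [CommRing R] (M : Meas K R) [Fintype σ] [Fintype μ]

theorem chi_TF [Finite ι] (f : ι → MvPolynomial σ K) (N : ℕ) :
    M.χ _ (TF f N N) = M.χ _ (JetF f Set.univ N) + M.χ _ (TF f (N + 1) N) := by
  rw [← M.add _ _ (constr_JetF f Constr.univ N) (constr_TF f (N + 1) N)]
  · congr 1
    ext z
    simp only [TF, JetF, Set.mem_union, Set.mem_ofPred_eq, Set.mem_univ, true_and]
    constructor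
    · intro h
      by_cases h1 : ∃ j, PowerSeries.coeff N (aeval (ar z) (f j)) ≠ 0
      · exact Or.inl ⟨h, h1⟩
      · push Not at h1
        refine Or.inr fun j k hk => ?_
        rcases Nat.lt_succ_iff_lt_or_eq.1 hk with h2 | rfl
        · exact h j k h2
        · exact h1 j
    · rintro (h | h)
      · exact h.1
      · exact fun j k hk => h j k (by omega)
  · rw [Set.disjoint_left]
    rintro z ⟨-, -, j, hj⟩ h
    exact hj (h j N (Nat.lt_succ_self N))

/-- one more coefficient -/
def lastE (σ : Type) (N : ℕ) : (σ × Fin (N + 1)) ⊕ σ → σ × Fin (N + 1 + 1)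
  | Sum.inl p => (p.1, p.2.castSucc)
  | Sum.inr i => (i, Fin.last (N + 1))

theorem lastE_bij (σ : Type) (N : ℕ) : Function.Bijective (lastE σ N) := by
  constructor
  · rintro (⟨i, k⟩ | i) (⟨j, l⟩ | j) h
    · simp only [lastE, Prod.mk.injEq] at h
      obtain ⟨rfl, h2⟩ := h
      rw [Fin.castSucc_injective _ h2]
    · simp only [lastE, Prod.mk.injEq] at h
      exact absurd h.2 (Fin.castSucc_lt_last k).ne
    · simp only [lastE, Prod.mk.injEq] at h
      exact absurd h.2 (Fin.castSucc_lt_last l).ne'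
    · simp only [lastE, Prod.mk.injEq] at h
      rw [h.1]
  · rintro ⟨i, k⟩
    refine Fin.lastCases ?_ (fun k => ?_) k
    · exact ⟨Sum.inr i, rfl⟩
    · exact ⟨Sum.inl (i, k), rfl⟩

theorem chi_TF_succ [Finite ι] (f : ι → MvPolynomial σ K) (N : ℕ) :
    M.χ _ (TF f (N + 1) (N + 1)) = M.χ _ (TF f (N + 1) N) * M.L ^ Fintype.card σ := by
  refine chi_split M (Equiv.ofBijective _ (lastE_bij σ N)) _ _ (constr_TF f (N + 1) N)
    fun z => ?_
  have h1 : ∀ j, ∀ k ≤ N, PowerSeries.coeff k (aeval (ar z) (f j)) =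
      PowerSeries.coeff k (aeval (ar fun i => z ((Equiv.ofBijective _ (lastE_bij σ N))
        (Sum.inl i))) (f j)) := by
    intro j
    refine coeff_congr (f j) N _ _ fun i k hk => ?_
    rw [coeff_ar' _ _ _ (by omega), coeff_ar' _ _ _ (by omega)]
    rfl
  constructor
  · intro h j k hk
    rw [← h1 j k (by omega)]
    exact h j k hk
  · intro h j k hk
    rw [h1 j k (by omega)]
    exact h j k hk

theorem chi_TF_zero (f : ι → MvPolynomial σ K) : M.χ _ (TF f 0 0) = M.L ^ Fintype.card σ := by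
  have h : TF f 0 0 = Set.univ := by
    ext z
    simp [TF]
  rw [h, chi_univ, Fintype.card_prod, Fintype.card_fin, zero_add, mul_one]

/-- the family `(f, u)` -/
noncomputable def stabI (μ : Type) (f : ι → MvPolynomial σ K) : ι ⊕ μ → MvPolynomial (σ ⊕ μ) K :=
  Sum.elim (fun j => rename Sum.inl (f j)) fun m => X (Sum.inr m)

theorem aeval_stab {N : ℕ} (z : Pt K ((σ ⊕ μ) × Fin (N + 1))) (g : MvPolynomial σ K) :
    aeval (ar z) (rename Sum.inl g) = aeval (ar fun p : σ × Fin (N + 1) =>
      z (Sum.inl p.1, p.2)) g := by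
  rw [aeval_rename]
  rfl

theorem mem_TF_stab {N i : ℕ} (hi : i ≤ N + 1) (f : ι → MvPolynomial σ K)
    (z : Pt K ((σ ⊕ μ) × Fin (N + 1))) : z ∈ TF (stabI μ f) i N ↔
      (fun p : σ × Fin (N + 1) => z (Sum.inl p.1, p.2)) ∈ TF f i N ∧
      ∀ m : μ, ∀ k : Fin (N + 1), (k : ℕ) < i → z (Sum.inr m, k) = 0 := by
  constructor
  · intro h
    refine ⟨fun j k hk => ?_, fun m k hk => ?_⟩
    · have := h (Sum.inl j) k hk
      rw [stabI, Sum.elim_inl, aeval_stab] at this
      exact this
    · have := h (Sum.inr m) k hk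
      rw [stabI, Sum.elim_inr, aeval_X, coeff_ar' _ _ _ k.2] at this
      exact this
  · rintro ⟨h1, h2⟩ (j | m) k hk
    · rw [stabI, Sum.elim_inl, aeval_stab]
      exact h1 j k hk
    · rw [stabI, Sum.elim_inr, aeval_X, coeff_ar' _ _ _ (by omega)]
      exact h2 m ⟨k, by omega⟩ hk

theorem chi_TF_stab1 [Finite ι] (f : ι → MvPolynomial σ K) (N : ℕ) :
    M.χ _ (TF (stabI μ f) (N + 1) N) = M.χ _ (TF f (N + 1) N) := by
  classical
  refine M.iso _ _ (constr_TF _ _ _) (constr_TF _ _ _)
    (fun z p => z (Sum.inl p.1, p.2))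
    (fun w p => match p with
      | (Sum.inl i, k) => w (i, k)
      | (Sum.inr _, _) => 0)
    (regularOn_poly (fun i => IsPF.coord _) _) (regularOn_poly (fun i => ?_) _) ?_ ?_ ?_ ?_
  · obtain ⟨i | m, k⟩ := i
    · exact IsPF.coord _
    · exact IsPF.zero
  · intro z hz
    exact ((mem_TF_stab (le_refl _) f z).1 hz).1
  · intro w hw
    exact (mem_TF_stab (le_refl _) f _).2 ⟨hw, fun m k _ => rfl⟩
  · intro z hz
    have h := ((mem_TF_stab (le_refl _) f z).1 hz).2
    funext p
    obtain ⟨i | m, k⟩ := p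
    · rfl
    · exact (h m k k.2).symm
  · intro w _
    rfl

theorem chi_TF_stab0 [Finite ι] (f : ι → MvPolynomial σ K) (N : ℕ) :
    M.χ _ (TF (stabI μ f) N N) = M.χ _ (TF f N N) * M.L ^ Fintype.card μ := by
  classical
  rw [← chi_univ, ← M.prod _ _ (constr_TF f N N) Constr.univ]
  have hT : Constr {z : Pt K ((σ × Fin (N + 1)) ⊕ μ) | (fun i => z (Sum.inl i)) ∈ TF f N N ∧
      (fun i => z (Sum.inr i)) ∈ (Set.univ : Set (Pt K μ))} := by
    refine Constr.and ?_ ?_
    · exact (constr_TF f N N).preimage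
        (fun z : Pt K ((σ × Fin (N + 1)) ⊕ μ) => fun i => z (Sum.inl i)) fun i => IsPF.coord _
    · exact Constr.const True
  refine M.iso _ _ (constr_TF _ _ _) hT
    (fun z p => match p with
      | Sum.inl q => z (Sum.inl q.1, q.2)
      | Sum.inr m => z (Sum.inr m, Fin.last N))
    (fun w p => match p with
      | (Sum.inl i, k) => w (Sum.inl (i, k))
      | (Sum.inr m, k) => if k = Fin.last N then w (Sum.inr m) else 0)
    (regularOn_poly (fun i => ?_) _) (regularOn_poly (fun i => ?_) _) ?_ ?_ ?_ ?_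
  · obtain q | m := i
    · exact IsPF.coord _
    · exact IsPF.coord _
  · obtain ⟨i | m, k⟩ := i
    · exact IsPF.coord _
    · by_cases hk : k = Fin.last N
      · simp only [if_pos hk]
        exact IsPF.coord _
      · simp only [if_neg hk]
        exact IsPF.zero
  · intro z hz
    exact ⟨((mem_TF_stab (Nat.le_succ N) f z).1 hz).1, trivial⟩
  · intro w hw
    refine (mem_TF_stab (Nat.le_succ N) f _).2 ⟨hw.1, fun m k hk => ?_⟩
    exact if_neg fun h => by
      rw [h, Fin.val_last] at hk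
      exact lt_irrefl _ hk
  · intro z hz
    have h := ((mem_TF_stab (Nat.le_succ N) f z).1 hz).2
    funext p
    obtain ⟨i | m, k⟩ := p
    · rfl
    · show (if k = Fin.last N then z (Sum.inr m, Fin.last N) else 0) = z (Sum.inr m, k)
      split_ifs with hk
      · rw [hk]
      · refine (h m k ?_).symm
        have h1 : (k : ℕ) ≠ N := fun h2 => hk (Fin.ext h2)
        have := k.2
        omega
  · intro w _
    funext p
    obtain q | m := p
    · rfl
    · exact if_pos rfl

end Pool.Agent.Q223.ID
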