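import Pool.Agent.Q223.ID.Feq

/-!
# The reduction for ideals
-/

set_option autoImplicit false
set_option linter.unusedSectionVars false

namespace Pool.Agent.Q223.ID

open MvPolynomial Pool.Agent.W574.SM Pool.Agent.W574.HS Pool.Agent.Q223.MM
open Pool.Agent.H628R4.TP (IsBFunction)
open Pool.Agent.W206.CU (isBFunction_iso)
open Pool.Agent.W428.MOT Pool.Agent.TH192.MT Pool.Agent.TH192.MU

section defs

variable {R : Type} [CommRing R] (E : MK ℂ →+* R) (ε : R →+* ℂ) {σ ι : Type} [Fintype σ]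
  [Fintype ι]

/-- Every pole of the topological zeta function of the ideal generated by the `f j` is a root of every
`b` which satisfies a functional equation of the `f j`. -/
def StrongI (f : ι → MvPolynomial σ ℂ) : Prop :=
  ∀ Z : RatFunc ℂ, IsTopZeta E ε (zetaId f) Z → ∀ s₀ : ℂ, Z.denom.eval s₀ = 0 →
    ∀ b : Polynomial ℂ, IsFunctionalEq f b → b.eval s₀ = 0

/-- `b(s) Z(s)` is a polynomial, for the topological zeta function `Z` of the ideal generated by the
`f j` and every `b` which satisfies a functional equation of the `f j`. -/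
def StrongI2 (f : ι → MvPolynomial σ ℂ) : Prop :=
  ∀ Z : RatFunc ℂ, IsTopZeta E ε (zetaId f) Z →
    ∀ b : Polynomial ℂ, IsFunctionalEq f b → ∃ P : Polynomial ℂ,
      algebraMap (Polynomial ℂ) (RatFunc ℂ) b * Z = algebraMap (Polynomial ℂ) (RatFunc ℂ) P

/-- The log canonical threshold of the ideal generated by the `f j` is larger than `N`: some `b ≠ 0`
which satisfies a functional equation has only roots with real part `< -N`. -/
def LctGt (N : ℕ) (f : ι → MvPolynomial σ ℂ) : Prop :=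
  ∃ b : Polynomial ℂ, b ≠ 0 ∧ IsFunctionalEq f b ∧ ∀ r ∈ b.roots, r.re < -(N : ℝ)

end defs

section congr

variable {σ τ ι ι' : Type} [Fintype σ] [Fintype τ] [Fintype ι] [Fintype ι']

theorem univ_congr (e : σ ≃ τ) (e' : ι' ≃ ι) (f : ι → MvPolynomial σ ℂ) :
    univ (fun j' => rename e (f (e' j'))) = rename (Equiv.sumCongr e'.symm e) (univ f) := by
  unfold univ
  rw [map_sum, ← Equiv.sum_comp e']
  refine Finset.sum_congr rfl fun j _ => ?_
  rw [map_mul, rename_X, rename_rename, rename_rename]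
  congr 2
  show Sum.inl j = Sum.inl (e'.symm (e' j))
  rw [Equiv.symm_apply_apply]

theorem fe_congr (e : σ ≃ τ) (e' : ι' ≃ ι) (f : ι → MvPolynomial σ ℂ) {b : Polynomial ℂ}
    (hb : IsFunctionalEq f b) : IsFunctionalEq (fun j' => rename e (f (e' j'))) b := by
  classical
  have h1 := Pool.Agent.W366.SI.taskI1' f b hb
  have h2 := isBFunction_iso (renameEquiv ℂ (Equiv.sumCongr e'.symm e)) h1
  rw [renameEquiv_apply, ← univ_congr] at h2
  exact functionalEq_of_univ' _ _ h2

theorem zetaId_congr (e : σ ≃ τ) (e' : ι' ≃ ι) (f : ι → MvPolynomial σ ℂ) :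
    zetaId (fun j' => rename e (f (e' j'))) = zetaId f := by
  have h1 : zetaId (fun j => renameEquiv ℂ e (f j)) = zetaId f :=
    zetaId_iso _ (Fintype.card_congr e).symm f
  rw [← h1]
  refine zetaId_ideal (fun j => ?_) (fun j => ?_)
  · exact Ideal.subset_span ⟨e' j, rfl⟩
  · refine Ideal.subset_span ⟨e'.symm j, ?_⟩
    beta_reduce
    rw [Equiv.apply_symm_apply]
    rfl

variable {R : Type} [CommRing R] {E : MK ℂ →+* R} {ε : R →+* ℂ}

theorem strongI_congr (e : σ ≃ τ) (e' : ι' ≃ ι) {f : ι → MvPolynomial σ ℂ}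
    (h : StrongI E ε (fun j' => rename e (f (e' j')))) : StrongI E ε f := by
  intro Z hZ s₀ hs b hb
  exact h Z (by rw [zetaId_congr]; exact hZ) s₀ hs b (fe_congr e e' f hb)

theorem strongI2_congr (e : σ ≃ τ) (e' : ι' ≃ ι) {f : ι → MvPolynomial σ ℂ}
    (h : StrongI2 E ε (fun j' => rename e (f (e' j')))) : StrongI2 E ε f := by
  intro Z hZ b hb
  exact h Z (by rw [zetaId_congr]; exact hZ) b (fe_congr e e' f hb)

end congr

section prog

variable {n r κ : ℕ}

theorem zetaId_gens {o : Fin κ → Option (Fin κ)} (ho : Forest o) {v : Fin κ → Fin n}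
    {a : Fin r → ℂ} {c : Fin r → Fin κ → ℂ} {e : Fin r → Fin κ → MvPolynomial (Fin n) ℂ}
    {f : Fin r → MvPolynomial (Fin n) ℂ} (hH : ∀ j, Horner o v (c j) (a j) (e j) (f j)) :
    zetaId (gens o v a c) = zetaId (stabI (Fin κ) f) := by
  rw [← zetaId_iso (psi o v ho) rfl (stabI (Fin κ) f)]
  have k1 : ∀ j : Fin r, gens o v a c (Sum.inl j) = rename Sum.inl (f j) +
      ∑ m, rename Sum.inl (e j m) * gens o v a c (Sum.inr m) := fun j =>
    horner_keyI o v (hH j)
  have k2 : ∀ m : Fin κ, psi o v ho (stabI (Fin κ) f (Sum.inr m)) =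
      gens o v a c (Sum.inr m) := fun m => psi_z o v ho m
  have k3 : ∀ j : Fin r, psi o v ho (stabI (Fin κ) f (Sum.inl j)) = rename Sum.inl (f j) :=
    fun j => psi_ren o v ho (f j)
  refine zetaId_ideal ?_ ?_
  · rintro (j | m)
    · rw [k1 j]
      refine Ideal.add_mem _ (Ideal.subset_span ⟨Sum.inl j, k3 j⟩)
        (Ideal.sum_mem _ fun m _ => Ideal.mul_mem_left _ _ (Ideal.subset_span ⟨Sum.inr m, k2 m⟩))
    · exact Ideal.subset_span ⟨Sum.inr m, k2 m⟩
  · rintro (j | m)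
    · rw [k3 j]
      have h5 : rename Sum.inl (f j) = gens o v a c (Sum.inl j) -
          ∑ m, rename Sum.inl (e j m) * gens o v a c (Sum.inr m) := by
        rw [k1 j]
        ring
      rw [h5]
      exact Ideal.sub_mem _ (Ideal.subset_span ⟨Sum.inl j, rfl⟩)
        (Ideal.sum_mem _ fun m _ => Ideal.mul_mem_left _ _ (Ideal.subset_span ⟨Sum.inr m, rfl⟩))
    · rw [k2 m]
      exact Ideal.subset_span ⟨Sum.inr m, rfl⟩

/-- the ideal of the program is proper if the ideal is -/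
theorem gens_proper {o : Fin κ → Option (Fin κ)} (ho : Forest o) {v : Fin κ → Fin n}
    {a : Fin r → ℂ} {c : Fin r → Fin κ → ℂ} {e : Fin r → Fin κ → MvPolynomial (Fin n) ℂ}
    {f : Fin r → MvPolynomial (Fin n) ℂ} (hH : ∀ j, Horner o v (c j) (a j) (e j) (f j))
    (hp : Ideal.span (Set.range f) ≠ ⊤) : Ideal.span (Set.range (gens o v a c)) ≠ ⊤ := by
  intro htop
  apply hp
  set θ : MvPolynomial (Fin n ⊕ Fin κ) ℂ →ₐ[ℂ] MvPolynomial (Fin n) ℂ :=
    (aeval (Sum.elim X fun _ => 0)).comp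
      ((psi o v ho).symm : MvPolynomial (Fin n ⊕ Fin κ) ℂ →ₐ[ℂ] MvPolynomial (Fin n ⊕ Fin κ) ℂ)
    with hθ
  have hz : ∀ m : Fin κ, θ (gens o v a c (Sum.inr m)) = 0 := by
    intro m
    have h1 : gens o v a c (Sum.inr m) = psi o v ho (X (Sum.inr m)) := (psi_z o v ho m).symm
    rw [h1, hθ, AlgHom.comp_apply]
    have h2 : ((psi o v ho).symm : MvPolynomial (Fin n ⊕ Fin κ) ℂ →ₐ[ℂ]
        MvPolynomial (Fin n ⊕ Fin κ) ℂ) (psi o v ho (X (Sum.inr m))) = X (Sum.inr m) :=
      (psi o v ho).symm_apply_apply (X (Sum.inr m))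
    rw [h2, aeval_X, Sum.elim_inr]
  have hr : ∀ g : MvPolynomial (Fin n) ℂ, θ (rename Sum.inl g) = g := by
    intro g
    rw [hθ, AlgHom.comp_apply]
    have h2 : ((psi o v ho).symm : MvPolynomial (Fin n ⊕ Fin κ) ℂ →ₐ[ℂ]
        MvPolynomial (Fin n ⊕ Fin κ) ℂ) (rename Sum.inl g) = rename Sum.inl g := by
      have h3 := (psi o v ho).symm_apply_apply (rename Sum.inl g)
      rw [psi_ren] at h3
      exact h3
    rw [h2, aeval_rename]
    exact aeval_X_left_apply g
  have h1 : (1 : MvPolynomial (Fin n ⊕ Fin κ) ℂ) ∈ Ideal.span (Set.range (gens o v a c)) := by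
    rw [htop]
    trivial
  rw [Ideal.eq_top_iff_one]
  have h2 : ∀ p ∈ Ideal.span (Set.range (gens o v a c)), θ p ∈ Ideal.span (Set.range f) := by
    intro p hp
    induction hp using Submodule.span_induction with
    | mem p hp =>
      obtain ⟨j | m, rfl⟩ := hp
      · have k1 : gens o v a c (Sum.inl j) = rename Sum.inl (f j) +
            ∑ m, rename Sum.inl (e j m) * gens o v a c (Sum.inr m) := horner_keyI o v (hH j)
        rw [k1, map_add, hr, map_sum, Finset.sum_eq_zero, add_zero]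
        · exact Ideal.subset_span ⟨j, rfl⟩
        · intro m _
          rw [map_mul, hz, mul_zero]
      · rw [hz]
        exact Ideal.zero_mem _
    | zero => rw [map_zero]; exact Ideal.zero_mem _
    | add p q _ _ hp hq => rw [map_add]; exact Ideal.add_mem _ hp hq
    | smul a p _ hp => rw [smul_eq_mul, map_mul]; exact Ideal.mul_mem_left _ _ hp
  have h3 := h2 1 h1
  rwa [map_one] at h3

theorem re_bound (c : Polynomial ℂ) : ∃ M : ℕ, ∀ r ∈ c.roots, r.re < M := by
  classical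
  obtain ⟨B, hB⟩ := ((c.roots.toFinset.finite_toSet).image fun r : ℂ => r.re).bddAbove
  obtain ⟨M, hM⟩ := exists_nat_gt B
  refine ⟨M, fun r hr => (hB ⟨r, ?_, rfl⟩).trans_lt hM⟩
  exact Finset.mem_coe.2 (Multiset.mem_toFinset.2 hr)

/-- **The reduction for one ideal.** -/
theorem reduceI (S : Set ℂ) (N n r : ℕ) (f : Fin r → MvPolynomial (Fin n) ℂ)
    (hf : ∃ j, f j ≠ 0) (hp : Ideal.span (Set.range f) ≠ ⊤)
    (hfS : ∀ j d, coeff d (f j) ∈ AddSubgroup.closure S) :
    ∃ (κ : ℕ) (o : Fin κ → Option (Fin κ)) (v : Fin κ → Fin n) (c : Fin r → Fin κ → ℂ),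
      0 < κ ∧ Forest o ∧ (∀ j m, c j m ∈ coeffs S) ∧
      Ideal.span (Set.range (gens o v (fun j => coeff 0 (f j)) c)) ≠ ⊤ ∧
      LctGt N (gens o v (fun j => coeff 0 (f j)) c) ∧
      ∀ (R : Type) [CommRing R] [IsDomain R] (E : MK ℂ →+* R) (ε : R →+* ℂ),
        ε (E ((Lu ℂ : (MK ℂ)ˣ) : MK ℂ)) = 1 → E ((Lu ℂ : (MK ℂ)ˣ) : MK ℂ) ≠ 1 →
        (StrongI E ε (gens o v (fun j => coeff 0 (f j)) c) → StrongI E ε f) ∧
        (StrongI2 E ε (gens o v (fun j => coeff 0 (f j)) c) → StrongI2 E ε f) := by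
  classical
  have hn : 0 < n := by
    rcases Nat.eq_zero_or_pos n with rfl | h
    · exfalso
      obtain ⟨j, hj⟩ := hf
      apply hp
      rw [Ideal.eq_top_iff_one]
      rw [eq_C_of_isEmpty (f j)] at hj
      have h0 : coeff 0 (f j) ≠ 0 := fun h => hj (by rw [h, map_zero])
      have h1 : (1 : MvPolynomial (Fin 0) ℂ) = C (coeff 0 (f j))⁻¹ * f j := by
        have h2 : f j = C (coeff 0 (f j)) := eq_C_of_isEmpty (f j)
        generalize coeff 0 (f j) = t at h0 h2
        rw [h2, ← map_mul, inv_mul_cancel₀ h0, map_one]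
      rw [h1]
      exact Ideal.mul_mem_left _ _ (Ideal.subset_span ⟨j, rfl⟩)
    · exact h
  obtain ⟨κ₀, hr⟩ := repF_closure f hfS
  obtain ⟨b, hb0, hb⟩ := Pool.Agent.Y229.exists_fe f hf
  obtain ⟨M, hM⟩ := re_bound b
  obtain ⟨o, v, c, e, ho, hc, hH⟩ := repF_ge (T := coeffs S) (Or.inl rfl) (⟨0, hn⟩ : Fin n) hr
    (max κ₀ (M + N) + 1) ((le_max_left _ _).trans (Nat.le_succ _))
  have hκN : M + N ≤ max κ₀ (M + N) + 1 := (le_max_right _ _).trans (Nat.le_succ _)
  have hκ0 : 0 < max κ₀ (M + N) + 1 := Nat.succ_pos _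
  generalize max κ₀ (M + N) + 1 = κ at o v c e ho hc hH hκN hκ0
  refine ⟨κ, o, v, c, hκ0, ho, hc, gens_proper ho hH hp, ?_, ?_⟩
  · refine ⟨_, comp_shift_ne hb0 (κ : ℂ), fe_gens ho hf hH hb, fun s hs => ?_⟩
    rw [Polynomial.mem_roots (comp_shift_ne hb0 _), Polynomial.IsRoot.def,
      Polynomial.eval_comp] at hs
    have h2 := hM _ ((Polynomial.mem_roots hb0).2 hs)
    rw [Polynomial.eval_add, Polynomial.eval_X, Polynomial.eval_C, Complex.add_re,
      Complex.natCast_re] at h2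
    have h3 : ((M + N : ℕ) : ℝ) ≤ (κ : ℝ) := by exact_mod_cast hκN
    push_cast at h3
    linarith
  · intro R _ _ E ε h1 hu
    have hrel := zetaId_stab (μ := Fin κ) f
    rw [Fintype.card_fin, Fintype.card_fin] at hrel
    refine ⟨fun h Z hZ s₀ hs b hb => ?_, fun h Z hZ b hb => ?_⟩
    · have hT := isTop_stab E ε h1 hu κ n hrel hZ
      rw [← zetaId_gens ho hH] at hT
      have h2 := h _ hT _ (pole_stab E ε hZ hκ0 hs) _ (fe_gens ho hf hH hb)
      rw [Polynomial.eval_comp, Polynomial.eval_add, Polynomial.eval_X, Polynomial.eval_C,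
        sub_add_cancel] at h2
      exact h2
    · have hT := isTop_stab E ε h1 hu κ n hrel hZ
      rw [← zetaId_gens ho hH] at hT
      obtain ⟨P', hP'⟩ := h _ hT _ (fe_gens ho hf hH hb)
      exact poly_stab E ε hZ hκ0 hP'

end prog

section back

variable {n r κ : ℕ}

theorem gens_ne (o : Fin κ → Option (Fin κ)) (v : Fin κ → Fin n) (a : Fin r → ℂ)
    (c : Fin r → Fin κ → ℂ) (m : Fin κ) : gens o v a c (Sum.inr m) ≠ 0 := by
  intro h
  have h1 := congrArg (eval (Sum.elim (fun _ => (0 : ℂ)) fun _ => 1)) h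
  unfold gens at h1
  rw [Sum.elim_inr, map_sub, map_mul, eval_X, eval_X, Sum.elim_inl, Sum.elim_inr, mul_zero,
    sub_zero, map_zero] at h1
  exact one_ne_zero h1

theorem gens_coeff {S : Set ℂ} (hS : (1 : ℂ) ∈ AddSubgroup.closure S)
    (o : Fin κ → Option (Fin κ)) (v : Fin κ → Fin n) (a : Fin r → ℂ)
    (c : Fin r → Fin κ → ℂ) (ha : ∀ j, a j ∈ AddSubgroup.closure S)
    (hc : ∀ j m, c j m ∈ coeffs S) (i : Fin r ⊕ Fin κ) (d : Fin n ⊕ Fin κ →₀ ℕ) :
    coeff d (gens o v a c i) ∈ AddSubgroup.closure S := by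
  classical
  have key : ∀ {a : ℂ} (_ : a ∈ AddSubgroup.closure S) (d d' : Fin n ⊕ Fin κ →₀ ℕ),
      coeff d (monomial d' a : MvPolynomial (Fin n ⊕ Fin κ) ℂ) ∈ AddSubgroup.closure S := by
    intro a ha d d'
    rw [coeff_monomial]
    split_ifs
    · exact ha
    · exact AddSubgroup.zero_mem _
  have hcm : ∀ {t : ℂ}, t ∈ coeffs S → t ∈ AddSubgroup.closure S := by
    rintro t (rfl | h | h)
    · exact AddSubgroup.zero_mem _
    · exact AddSubgroup.subset_closure h
    · rw [← neg_neg t]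
      exact AddSubgroup.neg_mem _ (AddSubgroup.subset_closure h)
  have e1 : ∀ i : Fin n ⊕ Fin κ, (X i : MvPolynomial (Fin n ⊕ Fin κ) ℂ) =
      monomial (Finsupp.single i 1) 1 := fun i => rfl
  unfold gens
  obtain j | m := i
  · rw [Sum.elim_inl, coeff_add, coeff_sum]
    refine AddSubgroup.add_mem _ ?_ (AddSubgroup.sum_mem _ fun m _ => ?_)
    · exact key (ha j) d 0
    · rw [e1, C_mul_monomial, mul_one]
      exact key (hcm (hc j m)) _ _
  · have e2 : ((o m).elim 1 fun m' => X (Sum.inr m') : MvPolynomial (Fin n ⊕ Fin κ) ℂ) =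
        monomial ((o m).elim 0 fun m' => Finsupp.single (Sum.inr m') 1) 1 := by
      cases o m with
      | none => rfl
      | some m' => rfl
    rw [Sum.elim_inr, e2, e1, e1, monomial_mul, mul_one, coeff_sub]
    exact AddSubgroup.sub_mem _ (key hS _ _) (key hS _ _)

/-- the generators with index set and variables numbered -/
noncomputable def gensF (o : Fin κ → Option (Fin κ)) (v : Fin κ → Fin n) (a : Fin r → ℂ)
    (c : Fin r → Fin κ → ℂ) : Fin (r + κ) → MvPolynomial (Fin (n + κ)) ℂ :=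
  fun j => rename finSumFinEquiv (gens o v a c (finSumFinEquiv.symm j))

theorem gensF_ne (o : Fin κ → Option (Fin κ)) (v : Fin κ → Fin n) (a : Fin r → ℂ)
    (c : Fin r → Fin κ → ℂ) (hκ : 0 < κ) : ∃ j, gensF o v a c j ≠ 0 := by
  refine ⟨finSumFinEquiv (Sum.inr ⟨0, hκ⟩), ?_⟩
  unfold gensF
  rw [Equiv.symm_apply_apply, Ne, map_eq_zero_iff _ (rename_injective _ (Equiv.injective _))]
  exact gens_ne o v a c _

theorem gensF_coeff {S : Set ℂ} (hS : (1 : ℂ) ∈ AddSubgroup.closure S)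
    (o : Fin κ → Option (Fin κ)) (v : Fin κ → Fin n) (a : Fin r → ℂ)
    (c : Fin r → Fin κ → ℂ) (ha : ∀ j, a j ∈ AddSubgroup.closure S)
    (hc : ∀ j m, c j m ∈ coeffs S) (j : Fin (r + κ)) (d : Fin (n + κ) →₀ ℕ) :
    coeff d (gensF o v a c j) ∈ AddSubgroup.closure S := by
  unfold gensF
  set e : Fin n ⊕ Fin κ ≃ Fin (n + κ) := finSumFinEquiv
  have h1 : d = Finsupp.mapDomain e (Finsupp.mapDomain e.symm d) := by
    rw [← Finsupp.mapDomain_comp, Equiv.self_comp_symm, Finsupp.mapDomain_id]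
  rw [h1, coeff_rename_mapDomain _ e.injective]
  exact gens_coeff hS o v a c ha hc _ _

theorem gensF_proper (o : Fin κ → Option (Fin κ)) (v : Fin κ → Fin n) (a : Fin r → ℂ)
    (c : Fin r → Fin κ → ℂ) (h : Ideal.span (Set.range (gens o v a c)) ≠ ⊤) :
    Ideal.span (Set.range (gensF o v a c)) ≠ ⊤ := by
  intro htop
  apply h
  rw [Ideal.eq_top_iff_one] at htop ⊢
  set e : Fin n ⊕ Fin κ ≃ Fin (n + κ) := finSumFinEquiv
  have h2 : ∀ p ∈ Ideal.span (Set.range (gensF o v a c)),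
      rename e.symm p ∈ Ideal.span (Set.range (gens o v a c)) := by
    intro p hp
    induction hp using Submodule.span_induction with
    | mem p hp =>
      obtain ⟨j, rfl⟩ := hp
      unfold gensF
      rw [rename_rename, Equiv.symm_comp_self, rename_id, AlgHom.id_apply]
      exact Ideal.subset_span ⟨_, rfl⟩
    | zero => rw [map_zero]; exact Ideal.zero_mem _
    | add p q _ _ hp hq => rw [map_add]; exact Ideal.add_mem _ hp hq
    | smul a p _ hp => rw [smul_eq_mul, map_mul]; exact Ideal.mul_mem_left _ _ hp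
  have h3 := h2 1 htop
  rwa [map_one] at h3

theorem gensF_congr {R : Type} [CommRing R] {E : MK ℂ →+* R} {ε : R →+* ℂ}
    (o : Fin κ → Option (Fin κ)) (v : Fin κ → Fin n) (a : Fin r → ℂ)
    (c : Fin r → Fin κ → ℂ) :
    (StrongI E ε (gensF o v a c) → StrongI E ε (gens o v a c)) ∧
      (StrongI2 E ε (gensF o v a c) → StrongI2 E ε (gens o v a c)) :=
  ⟨fun h => strongI_congr finSumFinEquiv finSumFinEquiv.symm h,
    fun h => strongI2_congr finSumFinEquiv finSumFinEquiv.symm h⟩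

end back

end Pool.Agent.Q223.ID
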