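import Pool.Agent.Q223.ID.Jets

/-!
# The motivic zeta function of the ideal `(f, u_1, …, u_κ)`
-/

set_option autoImplicit false
set_option linter.unusedSectionVars false

namespace Pool.Agent.Q223.ID

open MvPolynomial Pool.Agent.W428.MOT Pool.Agent.TH192.MT Pool.Agent.TH192.MU
open Pool.Agent.W63.MTFin (mapMeas L_mul)

/-! ### Invariance under isomorphisms -/

section iso

variable {K : Type} [Field K] {σ τ ι : Type}

/-- composition of jets with a polynomial map -/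
noncomputable def Tm (φ : MvPolynomial σ K →ₐ[K] MvPolynomial τ K) (N : ℕ)
    (z : Pt K (τ × Fin (N + 1))) : Pt K (σ × Fin (N + 1)) :=
  fun p => PowerSeries.coeff (p.2 : ℕ) (aeval (ar z) (φ (X p.1)))

theorem isPF_Tm (φ : MvPolynomial σ K →ₐ[K] MvPolynomial τ K) (N : ℕ)
    (p : σ × Fin (N + 1)) : IsPF (fun z => Tm φ N z p) := isPF_coeff (φ (X p.1)) p.2

theorem coeff_Tm (φ : MvPolynomial σ K →ₐ[K] MvPolynomial τ K) {N : ℕ}
    (z : Pt K (τ × Fin (N + 1))) (g : MvPolynomial σ K) :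
    ∀ k ≤ N, PowerSeries.coeff k (aeval (ar (Tm φ N z)) g) =
      PowerSeries.coeff k (aeval (ar z) (φ g)) := by
  intro k hk
  have h := coeff_congr g N (ar (Tm φ N z)) (fun i => aeval (ar z) (φ (X i)))
    (fun i k hk => by
      rw [coeff_ar' _ _ _ (by omega)]
      rfl) k hk
  have h2 : (aeval (fun i => aeval (ar z) (φ (X i))) :
      MvPolynomial σ K →ₐ[K] PowerSeries (AlgebraicClosure K)) = (aeval (ar z)).comp φ := by
    apply MvPolynomial.algHom_ext
    intro i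
    rw [aeval_X]
    rfl
  rw [h, h2]
  rfl

theorem Tm_Tm (φ : MvPolynomial σ K →ₐ[K] MvPolynomial τ K)
    (φ' : MvPolynomial τ K →ₐ[K] MvPolynomial σ K)
    (h : ∀ g, φ (φ' g) = g) {N : ℕ} (z : Pt K (τ × Fin (N + 1))) :
    Tm φ' N (Tm φ N z) = z := by
  funext p
  obtain ⟨i, k⟩ := p
  change PowerSeries.coeff (k : ℕ) (aeval (ar (Tm φ N z)) (φ' (X i))) = z (i, k)
  rw [coeff_Tm φ z _ _ (by omega), h, aeval_X, coeff_ar' _ _ _ k.2]

theorem chi_iso {R : Type} [CommRing R] (M : Meas K R) [Fintype σ] [Fintype τ] [Finite ι]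
    (ψ : MvPolynomial σ K ≃ₐ[K] MvPolynomial τ K) (f : ι → MvPolynomial σ K) (N : ℕ) :
    M.χ _ (JetF (fun j => ψ (f j)) Set.univ N) = M.χ _ (JetF f Set.univ N) := by
  have h1 : ∀ g, (ψ : MvPolynomial σ K →ₐ[K] MvPolynomial τ K)
      ((ψ.symm : MvPolynomial τ K →ₐ[K] MvPolynomial σ K) g) = g :=
    fun g => ψ.apply_symm_apply g
  have h2 : ∀ g, (ψ.symm : MvPolynomial τ K →ₐ[K] MvPolynomial σ K)
      ((ψ : MvPolynomial σ K →ₐ[K] MvPolynomial τ K) g) = g :=
    fun g => ψ.symm_apply_apply g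
  refine M.iso _ _ (constr_JetF _ Constr.univ N) (constr_JetF f Constr.univ N)
    (Tm (ψ : MvPolynomial σ K →ₐ[K] MvPolynomial τ K) N)
    (Tm (ψ.symm : MvPolynomial τ K →ₐ[K] MvPolynomial σ K) N)
    (regularOn_poly (fun p => isPF_Tm _ N p) _) (regularOn_poly (fun p => isPF_Tm _ N p) _)
    ?_ ?_ (fun z _ => Tm_Tm _ _ h1 z) (fun z _ => Tm_Tm _ _ h2 z)
  · rintro z ⟨-, g2, j, g3⟩
    refine ⟨trivial, fun j k hk => ?_, j, ?_⟩
    · rw [coeff_Tm _ _ _ _ hk.le]
      exact g2 j k hk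
    · rw [coeff_Tm _ _ _ _ le_rfl]
      exact g3
  · rintro z ⟨-, g2, j, g3⟩
    refine ⟨trivial, fun j k hk => ?_, j, ?_⟩
    · rw [coeff_Tm _ _ _ _ hk.le]
      have e3 : (ψ.symm : MvPolynomial τ K →ₐ[K] MvPolynomial σ K) (ψ (f j)) = f j :=
        ψ.symm_apply_apply (f j)
      rw [e3]
      exact g2 j k hk
    · rw [coeff_Tm _ _ _ _ le_rfl]
      have e3 : (ψ.symm : MvPolynomial τ K →ₐ[K] MvPolynomial σ K) (ψ (f j)) = f j :=
        ψ.symm_apply_apply (f j)
      rw [e3]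
      exact g3

end iso

section same

variable {K : Type} [Field K] {σ ι ι' : Type}

/-- the jets only depend on the ideal -/
theorem jetF_ideal {f : ι → MvPolynomial σ K} {g : ι' → MvPolynomial σ K}
    (h : ∀ j, f j ∈ Ideal.span (Set.range g)) (h' : ∀ j, g j ∈ Ideal.span (Set.range f))
    (N : ℕ) : JetF f Set.univ N = JetF g Set.univ N := by
  have key : ∀ {ι ι' : Type} {f : ι → MvPolynomial σ K} {g : ι' → MvPolynomial σ K},
      (∀ j, f j ∈ Ideal.span (Set.range g)) → ∀ z : Pt K (σ × Fin (N + 1)), ∀ i : ℕ,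
      (∀ j, ∀ k < i, PowerSeries.coeff k (aeval (ar z) (g j)) = 0) →
      ∀ j, ∀ k < i, PowerSeries.coeff k (aeval (ar z) (f j)) = 0 := by
    intro ι ι' f g h z i hz j
    have h1 := h j
    rw [← PowerSeries.X_pow_dvd_iff]
    have h2 : ∀ p ∈ Ideal.span (Set.range g), (PowerSeries.X ^ i :
        PowerSeries (AlgebraicClosure K)) ∣ aeval (ar z) p := by
      intro p hp
      induction hp using Submodule.span_induction with
      | mem p hp =>
        obtain ⟨j, rfl⟩ := hp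
        rw [PowerSeries.X_pow_dvd_iff]
        exact hz j
      | zero => rw [map_zero]; exact dvd_zero _
      | add p q _ _ hp hq => rw [map_add]; exact dvd_add hp hq
      | smul a p _ hp => rw [smul_eq_mul, map_mul]; exact hp.mul_left _
    exact h2 _ h1
  have hsub : ∀ {ι ι' : Type} {f : ι → MvPolynomial σ K} {g : ι' → MvPolynomial σ K},
      (∀ j, f j ∈ Ideal.span (Set.range g)) → (∀ j, g j ∈ Ideal.span (Set.range f)) →
      JetF f Set.univ N ⊆ JetF g Set.univ N := by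
    intro ι ι' f g h h' z hz
    obtain ⟨-, h2, j, h3⟩ := hz
    refine ⟨trivial, fun j k hk => key h' z N h2 j k hk, ?_⟩
    by_contra hcon
    push Not at hcon
    apply h3
    refine key h z (N + 1) (fun j' k hk => ?_) j N (Nat.lt_succ_self N)
    rcases Nat.lt_succ_iff_lt_or_eq.1 hk with h4 | rfl
    · exact key h' z N h2 j' k h4
    · exact hcon j'
  exact Set.Subset.antisymm (hsub h h') (hsub h' h)

end same

/-! ### The zeta functions -/

section zeta

variable {σ τ ι ι' μ : Type} [Fintype σ] [Fintype τ] [Fintype μ]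

theorem zetaId_iso [Finite ι] (ψ : MvPolynomial σ ℂ ≃ₐ[ℂ] MvPolynomial τ ℂ)
    (hc : Fintype.card τ = Fintype.card σ) (f : ι → MvPolynomial σ ℂ) :
    zetaId (fun j => ψ (f j)) = zetaId f := by
  obtain ⟨M₀, hM₀⟩ := Pool.Agent.W417.MT.K0.main ℂ
  ext d
  rw [zetaId, zetaId, PowerSeries.coeff_mk, PowerSeries.coeff_mk, ← hM₀, ← hM₀,
    chi_iso M₀ ψ f d, hc]

theorem zetaId_ideal {f : ι → MvPolynomial σ ℂ} {g : ι' → MvPolynomial σ ℂ}
    (h : ∀ j, f j ∈ Ideal.span (Set.range g)) (h' : ∀ j, g j ∈ Ideal.span (Set.range f)) :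
    zetaId f = zetaId g := by
  ext d
  rw [zetaId, zetaId, PowerSeries.coeff_mk, PowerSeries.coeff_mk, jetF_ideal h h']

theorem coeff_zero_lin {R : Type} [CommRing R] (a : R) (P : PowerSeries R) :
    PowerSeries.coeff 0 ((1 - PowerSeries.C a * PowerSeries.X) * P) = PowerSeries.coeff 0 P := by
  rw [sub_mul, one_mul, map_sub, mul_assoc, PowerSeries.coeff_C_mul, PowerSeries.coeff_zero_X_mul,
    mul_zero, sub_zero]

theorem coeff_succ_lin {R : Type} [CommRing R] (a : R) (P : PowerSeries R) (d : ℕ) :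
    PowerSeries.coeff (d + 1) ((1 - PowerSeries.C a * PowerSeries.X) * P) =
      PowerSeries.coeff (d + 1) P - a * PowerSeries.coeff d P := by
  rw [sub_mul, one_mul, map_sub, mul_assoc, PowerSeries.coeff_C_mul, PowerSeries.coeff_succ_X_mul]

/-- **The relation of the zeta functions of `(f)` and `(f, u_1, …, u_κ)`.** -/
theorem zetaId_stab [Finite ι] (f : ι → MvPolynomial σ ℂ) :
    (1 - PowerSeries.C ((((Lu ℂ)⁻¹ : (MK ℂ)ˣ) : MK ℂ) ^ Fintype.card μ) * PowerSeries.X) *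
      zetaId (stabI μ f) =
    PowerSeries.C ((((Lu ℂ : (MK ℂ)ˣ) : MK ℂ) ^ Fintype.card μ - 1) *
      ((Lu ℂ : (MK ℂ)ˣ) : MK ℂ) ^ Fintype.card σ) +
    (1 - PowerSeries.X) * PowerSeries.rescale ((((Lu ℂ)⁻¹ : (MK ℂ)ˣ) : MK ℂ) ^ Fintype.card μ)
      (zetaId f) := by
  obtain ⟨M₀, hM₀⟩ := Pool.Agent.W417.MT.K0.main ℂ
  set M := mapMeas M₀ (algebraMap (K0 ℂ) (MK ℂ)) with hM
  set Y : MK ℂ := (((Lu ℂ)⁻¹ : (MK ℂ)ˣ) : MK ℂ) with hY
  set L : MK ℂ := ((Lu ℂ : (MK ℂ)ˣ) : MK ℂ) with hLdef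
  have hLY : L * Y = 1 := Units.mul_inv _
  have hML : M.L = L := by
    have hL : M.L * Y = 1 := L_mul hM₀
    calc M.L = M.L * (L * Y) := by rw [hLY, mul_one]
      _ = (M.L * Y) * L := by ring
      _ = _ := by rw [hL, one_mul]
  set κ := Fintype.card μ with hκ
  set n := Fintype.card σ with hn
  have hz : ∀ d, PowerSeries.coeff d (zetaId f) =
      M.χ _ (JetF f Set.univ d) * Y ^ (n * d) := by
    intro d
    rw [zetaId, PowerSeries.coeff_mk, zpow_neg, zpow_natCast, ← inv_pow,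
      Units.val_pow_eq_pow_val, ← hM₀]
    rfl
  have hz' : ∀ d, PowerSeries.coeff d (zetaId (stabI μ f)) =
      M.χ _ (JetF (stabI μ f) Set.univ d) * Y ^ ((n + κ) * d) := by
    intro d
    rw [zetaId, PowerSeries.coeff_mk, zpow_neg, zpow_natCast, ← inv_pow,
      Units.val_pow_eq_pow_val, ← hM₀, Fintype.card_sum]
    rfl
  set A : ℕ → MK ℂ := fun d => M.χ _ (JetF f Set.univ d) * Y ^ (n * d) with hA
  set t : ℕ → MK ℂ := fun d => M.χ _ (TF f d d) * Y ^ (n * d) with ht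
  have ht0 : t 0 = L ^ n := by
    rw [ht]
    beta_reduce
    rw [chi_TF_zero, hML, mul_zero, pow_zero, mul_one]
  have hts : ∀ d, t (d + 1) = t d - A d := by
    intro d
    rw [ht, hA]
    beta_reduce
    rw [chi_TF_succ, hML, chi_TF M f d]
    have h3 : L ^ n * Y ^ n = 1 := by rw [← mul_pow, hLY, one_pow]
    rw [show n * (d + 1) = n + n * d by ring, pow_add]
    linear_combination (M.χ _ (TF f (d + 1) d) * Y ^ (n * d)) * h3
  have hA' : ∀ d, M.χ _ (JetF (stabI μ f) Set.univ d) * Y ^ ((n + κ) * d) =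
      Y ^ (κ * d) * (A d + (L ^ κ - 1) * t d) := by
    intro d
    have h1 := chi_TF M (stabI μ f) d
    rw [chi_TF_stab0, chi_TF_stab1, hML] at h1
    have h2 := chi_TF M f d
    rw [ht, hA]
    beta_reduce
    rw [show (n + κ) * d = κ * d + n * d by ring, pow_add]
    have h3 : M.χ _ (JetF (stabI μ f) Set.univ d) =
        M.χ _ (JetF f Set.univ d) + (L ^ κ - 1) * M.χ _ (TF f d d) := by
      linear_combination h2 - h1
    rw [h3]
    ring
  have hX : (1 - PowerSeries.X : PowerSeries (MK ℂ)) = 1 - PowerSeries.C 1 * PowerSeries.X := by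
    rw [map_one, one_mul]
  rw [hX]
  ext d
  rcases d with _ | d
  · rw [coeff_zero_lin, hz', hA', map_add, coeff_zero_lin, PowerSeries.coeff_C, if_pos rfl,
      PowerSeries.coeff_rescale, hz, ht0]
    show _ = _ + (Y ^ κ) ^ 0 * A 0
    simp
    ring
  · rw [coeff_succ_lin, hz', hA', map_add, coeff_succ_lin, PowerSeries.coeff_C,
      if_neg (Nat.succ_ne_zero d), PowerSeries.coeff_rescale, hz, PowerSeries.coeff_rescale, hz,
      hz', hA', hts]
    show _ = 0 + ((Y ^ κ) ^ (d + 1) * A (d + 1) - 1 * ((Y ^ κ) ^ d * A d))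
    have h3 : L ^ κ * Y ^ κ = 1 := by rw [← mul_pow, hLY, one_pow]
    rw [show κ * (d + 1) = κ + κ * d by ring, pow_add Y κ (κ * d), pow_mul Y κ d, pow_succ (Y ^ κ) d]
    linear_combination ((Y ^ κ) ^ d * A d) * (-h3)

end zeta

end Pool.Agent.Q223.ID
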